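import Pool.Agent.Y993.LL.Upper
import Pool.Agent.H984R4.HN.Two

/-!
Two arms across an annulus, and upper bounds for the probability that two or three states are on
the same interface.
-/

set_option autoImplicit false

namespace Q292.LDep

open H974 Finset H342P H984P H984H MeasureTheory Pool.Agent.Y993.LL

/-- the edges of an annulus -/
noncomputable def AX (c : Vtx) (k R : ℕ) : Finset Edg := bx c R \ bx c k

/-- two arms across an annulus -/
def An (c : Vtx) (k R : ℕ) (F : Set Edg) : Prop :=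
  H12S.Crs c.1 c.2 (k + 1) R (F ∩ ↑(AX c k R)) ∧ H12S.DCrs c.1 c.2 (k + 1) R (↑(AX c k R) \ F)

theorem an_of_conn {F : Set Edg} {σ τ : St} {c : Vtx} {k R : ℕ} (h : Conn F σ τ)
    (hσ : σ.1 ∈ ctr c k) (hτ : Far c ((R : ℤ) + 1) τ.1) (hkR : k + 2 ≤ R) : An c k R F := by
  have hfσ := arms_face σ
  have hfτ := arms_face τ
  rw [mem_ctr'] at hσ
  obtain ⟨c1, c2⟩ := c
  unfold Far at hτ
  simp only at hσ hτ
  have hkR' : (k : ℤ) + 2 ≤ R := by exact_mod_cast hkR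
  constructor
  · obtain ⟨y, hy, hp⟩ := arms_reach (X := (↑(bx (c1, c2) R) : Set Edg))
      (G := F ∩ ↑(bx (c1, c2) R))
      (fun z => (c1 - R < z.1 ∧ z.1 < c1 + R) ∧ (c2 - R < z.2 ∧ z.2 < c2 + R))
      (fun e _ hB => by
        obtain ⟨x, y, _ | _⟩ := e
        · simp only [src_mk, tgt_false] at hB
          simp only [bx, Finset.mem_coe, mem_RE_false]
          omega
        · simp only [src_mk, tgt_true] at hB
          simp only [bx, Finset.mem_coe, mem_RE_true]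
          omega) (fun e he => he) h.1 (by
        show ¬ ((c1 - R < τ.1.1 ∧ τ.1.1 < c1 + R) ∧ (c2 - R < τ.1.2 ∧ τ.1.2 < c2 + R))
        omega)
    obtain ⟨x, hx, hq⟩ := arms_reach
      (X := ((↑(bx (c1, c2) k) : Set Edg))ᶜ)
      (G := F ∩ ↑(AX (c1, c2) k R))
      (fun z => ¬ ((c1 - k ≤ z.1 ∧ z.1 ≤ c1 + k) ∧ (c2 - k ≤ z.2 ∧ z.2 ≤ c2 + k)))
      (fun e _ hB => by
        intro hcon
        have hcon' : e ∈ bx (c1, c2) k := hcon
        obtain ⟨x, y, _ | _⟩ := e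
        · simp only [bx, mem_RE_false] at hcon'
          simp only [src_mk, tgt_false] at hB
          omega
        · simp only [bx, mem_RE_true] at hcon'
          simp only [src_mk, tgt_true] at hB
          omega)
      (by
        rintro e ⟨⟨h1, h2⟩, h3⟩
        refine ⟨h1, ?_⟩
        unfold AX
        rw [Finset.coe_sdiff]
        exact ⟨h2, h3⟩) hp.symm (by rw [not_not]; exact hσ)
    refine ⟨x, y, ?_, ?_, hq.symm⟩
    · unfold inR
      push_cast
      omega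
    · omega
  · obtain ⟨g', hg', hp'⟩ := arms_dreach (X := (↑(bx (c1, c2) R) : Set Edg))
      (G := Fᶜ ∩ ↑(bx (c1, c2) R))
      (fun z => (c1 - R < z.1 ∧ z.1 < c1 + R) ∧ (c2 - R < z.2 ∧ z.2 < c2 + R))
      (fun e _ hB => by
        obtain ⟨x, y, _ | _⟩ := e
        · simp only [dsrc_false, dtgt_mk] at hB
          simp only [bx, Finset.mem_coe, mem_RE_false]
          omega
        · simp only [dsrc_true, dtgt_mk] at hB
          simp only [bx, Finset.mem_coe, mem_RE_true]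
          omega)
      (fun e he => he) h.2 (by
        show ¬ ((c1 - R < (face τ).1 ∧ (face τ).1 < c1 + R) ∧
          (c2 - R < (face τ).2 ∧ (face τ).2 < c2 + R))
        omega)
    obtain ⟨x, hx, hq⟩ := arms_dreach
      (X := ((↑(bx (c1, c2) k) : Set Edg))ᶜ)
      (G := ↑(AX (c1, c2) k R) \ F)
      (fun z => ¬ ((c1 - k - 1 ≤ z.1 ∧ z.1 ≤ c1 + k) ∧ (c2 - k - 1 ≤ z.2 ∧ z.2 ≤ c2 + k)))
      (fun e _ hB => by
        intro hcon
        have hcon' : e ∈ bx (c1, c2) k := hcon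
        obtain ⟨x, y, _ | _⟩ := e
        · simp only [bx, mem_RE_false] at hcon'
          simp only [dsrc_false, dtgt_mk] at hB
          omega
        · simp only [bx, mem_RE_true] at hcon'
          simp only [dsrc_true, dtgt_mk] at hB
          omega)
      (by
        rintro e ⟨⟨h1, h2⟩, h3⟩
        refine ⟨?_, h1⟩
        unfold AX
        rw [Finset.coe_sdiff]
        exact ⟨h2, h3⟩) hp'.symm (by
        rw [not_not]
        omega)
    refine ⟨x, g', ?_, ?_, hq.symm⟩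
    · unfold inR
      push_cast
      omega
    · omega

theorem an_inter {c : Vtx} {k R : ℕ} {T : Set Edg} (hT : ↑(AX c k R) ⊆ T) (F : Set Edg) :
    An c k R F ↔ An c k R (F ∩ T) := by
  unfold An
  have h1 : F ∩ T ∩ ↑(AX c k R) = F ∩ ↑(AX c k R) := by
    ext e
    constructor
    · rintro ⟨⟨h1, -⟩, h3⟩; exact ⟨h1, h3⟩
    · rintro ⟨h1, h3⟩; exact ⟨⟨h1, hT h3⟩, h3⟩
  have h2 : (↑(AX c k R) : Set Edg) \ (F ∩ T) = ↑(AX c k R) \ F := by
    ext e
    constructor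
    · rintro ⟨h1, h2⟩; exact ⟨h1, fun h => h2 ⟨h, hT h1⟩⟩
    · rintro ⟨h1, h2⟩; exact ⟨h1, fun h => h2 h.1⟩
  rw [h1, h2]

/-- the event depends on the edges of `T` only -/
def Loc (A : Finset Edg → Prop) (T : Finset Edg) : Prop := ∀ F, A F ↔ A (F ∩ T)

theorem Loc.mono {A : Finset Edg → Prop} {T U : Finset Edg} (h : Loc A T) (hTU : T ⊆ U) :
    Loc A U := by
  intro F
  rw [h F, h (F ∩ U)]
  have : F ∩ U ∩ T = F ∩ T := by
    rw [Finset.inter_assoc, Finset.inter_eq_right.mpr hTU]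
  rw [this]

theorem an_loc (c : Vtx) (k R : ℕ) : Loc (fun F => An c k R (↑F)) (AX c k R) := by
  intro F
  show An c k R (↑F) ↔ An c k R (↑(F ∩ AX c k R))
  rw [Finset.coe_inter]
  exact an_inter (Set.Subset.refl _) _

theorem two_loc' (u f : Vtx) {k : ℕ} (hk : 0 < k) : Loc (fun F => Two u f k (↑F)) (bx u k) := by
  intro F
  exact two_inter (by exact_mod_cast hk) F (Finset.Subset.refl _)

theorem ind2 {S T U : Finset Edg} {A B : Finset Edg → Prop} (hT : T ⊆ S) (hU : U ⊆ S)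
    (hd : Disjoint T U) (hA : Loc A T) (hB : Loc B U) {a b : ℝ}
    (ha : Pr (fun _ => (1/2:ℝ)) S A ≤ a) (hb : Pr (fun _ => (1/2:ℝ)) S B ≤ b) :
    Pr (fun _ => (1/2:ℝ)) S (fun F => A F ∧ B F) ≤ a * b ∧ Loc (fun F => A F ∧ B F) (T ∪ U) := by
  constructor
  · rw [Pr_indep hT hU hd (fun F _ => hA F) (fun F _ => hB F)]
    exact mul_le_mul ha hb (Pr_nonneg ok2 _ _) ((Pr_nonneg ok2 _ _).trans ha)
  · intro F
    exact and_congr ((hA.mono Finset.subset_union_left) F) ((hB.mono Finset.subset_union_right) F)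

theorem pr_an {C : ℝ} (hA : AnnUp C) {c : Vtx} {k R : ℕ} (hkR : k + 1 ≤ R) {S : Finset Edg}
    (hS : AX c k R ⊆ S) :
    Pr (fun _ => (1/2:ℝ)) S (fun F => An c k R (↑F)) ≤
      C * (((k + 1 : ℕ) : ℝ) / R) ^ (1/4 : ℝ) := by
  rw [Pr_local hS (fun F _ => an_loc c k R F)]
  refine le_trans (le_of_eq ?_) (hA (k + 1) R (by omega) hkR c.1 c.2 (AX c k R))
  apply Pr_congr
  intro F hF
  unfold An
  have h1 : (↑F : Set Edg) ∩ ↑(AX c k R) = ↑F := by
    rw [Set.inter_eq_left]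
    exact_mod_cast hF
  rw [h1, Finset.coe_sdiff]

theorem pr_two' {C : ℝ} (hU : TwoUp C (1/4)) {σ : St} {k : ℕ} (hk : 0 < k) {S : Finset Edg}
    (hS : bx σ.1 k ⊆ S) :
    Pr (fun _ => (1/2:ℝ)) S (fun F => Two σ.1 (face σ) k (↑F)) ≤ C * (k:ℝ) ^ (-(1/4) : ℝ) := by
  have hk' : (0 : ℤ) < k := by exact_mod_cast hk
  have h1 : Pr (fun _ => (1/2:ℝ)) S (fun F => Two σ.1 (face σ) k (↑F)) =
      Pr (fun _ => (1/2:ℝ)) (RE (σ.1.1 - k) (σ.1.1 + k) (σ.1.2 - k) (σ.1.2 + k))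
        (fun F => Two σ.1 (face σ) k (↑F)) := pr_two hk' hS
  rw [h1]
  exact_mod_cast hU k σ.1 (face σ) hk' (inc_face σ)

theorem FF_an {c : Vtx} {k R : ℕ} {S : Finset Edg} (hS : AX c k R ⊆ S)
    (ω : sqLattice.edgeSet → Bool) : An c k R (opn ω) ↔ An c k R (↑(FF S ω)) := by
  rw [FF_coe]
  exact an_inter (by exact_mod_cast hS) _

theorem bx_disj {u v : Vtx} {k m : ℕ} {D : ℤ} (h : Far u D v) (hD : (k : ℤ) + m < D) :
    Disjoint (bx u k) (bx v m) := by
  unfold bx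
  unfold Far at h
  rw [Finset.disjoint_left]
  rintro ⟨x, y, b⟩ h1 h2
  cases b
  · rw [mem_RE_false] at h1 h2; omega
  · rw [mem_RE_true] at h1 h2; omega

theorem bx_mem {u v : Vtx} {k m : ℕ} {d : ℤ} (h : |u.1 - v.1| ≤ d ∧ |u.2 - v.2| ≤ d)
    (hd : d + k ≤ m) : bx v k ⊆ bx u m := by
  obtain ⟨h1, h2⟩ := h
  rw [abs_le] at h1 h2
  exact bx_sub (by omega) (by omega) (by omega) (by omega)

/-- the function `t ↦ t ^ (-1/4)` -/
noncomputable def qr (t : ℝ) : ℝ := t ^ (-(1/4) : ℝ)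

theorem qr_pos {t : ℝ} (ht : 0 < t) : 0 < qr t := Real.rpow_pos_of_pos ht _

theorem qr_le {x y M : ℝ} (hx : 0 < x) (hy : 0 < y) (hM : 1 ≤ M) (h : y ≤ M * x) :
    qr x ≤ M * qr y := two_inv hx hy hM h

theorem qr_one : qr 1 = 1 := Real.one_rpow _

/-- the annulus factor -/
theorem an_fac {k R : ℕ} {x : ℝ} (hR : 1 ≤ R) (hx : 0 < x) (h : (k : ℝ) + 1 ≤ x) :
    (((k + 1 : ℕ) : ℝ) / R) ^ (1/4 : ℝ) * qr x ≤ qr R := by
  have hR0 : (0 : ℝ) < R := by exact_mod_cast hR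
  have h1 : (((k + 1 : ℕ) : ℝ) / R) ^ (1/4 : ℝ) ≤ (x / R) ^ (1/4 : ℝ) := by
    apply Real.rpow_le_rpow (by positivity) _ (by norm_num)
    apply div_le_div_of_nonneg_right _ hR0.le
    push_cast
    exact h
  have h2 : (x / R) ^ (1/4 : ℝ) * qr x = qr R := by
    unfold qr
    rw [Real.div_rpow hx.le hR0.le, Real.rpow_neg hx.le, Real.rpow_neg hR0.le]
    have : x ^ (1/4 : ℝ) ≠ 0 := (Real.rpow_pos_of_pos hx _).ne'
    field_simp
  rw [← h2]
  exact mul_le_mul_of_nonneg_right h1 (qr_pos hx).le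

end Q292.LDep
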