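import Pool.Agent.Q292.TVY.LoopEx
import Pool.Agent.Q292.CDep.Clu

/-!
Two interfaces: the joint law and the product law.
-/

set_option autoImplicit false

namespace Q292.LDep

open H974 Finset Q292.TVY Q292.CDep MeasureTheory ProbabilityTheory H984P Pool.Agent.Y993.LL

/-- two paths with a common state which they leave in different ways -/
def Split (p q : ℕ → St) : Prop := ∃ s t, p s = q t ∧ p (s + 1) ≠ q (t + 1)

/-! ### measurability -/

theorem nxt_if (ω : Cf) (ρ : St) :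
    nxt (opn ω) ρ = if ω (toE (ae ρ)) = true then mv ρ else rt ρ := by
  by_cases h : ae ρ ∈ opn ω
  · rw [nxt_open h, if_pos (show ω (toE (ae ρ)) = true from h)]
  · rw [nxt_closed h, if_neg (show ¬ ω (toE (ae ρ)) = true from h)]

theorem meas_nxt (ρ τ : St) : MeasurableSet {ω : Cf | nxt (opn ω) ρ = τ} := by
  have h : {ω : Cf | nxt (opn ω) ρ = τ} =
      (fun ω : Cf => ω (toE (ae ρ))) ⁻¹' {b | (if b = true then mv ρ else rt ρ) = τ} := by
    ext ω
    show nxt (opn ω) ρ = τ ↔ (if ω (toE (ae ρ)) = true then mv ρ else rt ρ) = τ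
    rw [nxt_if]
  rw [h]
  exact measurable_pi_apply _ MeasurableSet.of_discrete

theorem meas_ifc (σ : St) (s : ℕ) : ∀ τ : St, MeasurableSet {ω : Cf | ifc σ ω s = τ} := by
  induction s with
  | zero =>
    intro τ
    exact MeasurableSet.const (σ = τ)
  | succ s ih =>
    intro τ
    have h : {ω : Cf | ifc σ ω (s + 1) = τ} =
        ⋃ ρ : St, {ω : Cf | ifc σ ω s = ρ} ∩ {ω : Cf | nxt (opn ω) ρ = τ} := by
      ext ω
      rw [Set.mem_iUnion]
      constructor
      · intro hω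
        refine ⟨ifc σ ω s, rfl, ?_⟩
        have hω' : orb (opn ω) σ (s + 1) = τ := hω
        rw [orb_succ] at hω'
        exact hω'
      · rintro ⟨ρ, h1, h2⟩
        have h1' : orb (opn ω) σ s = ρ := h1
        show orb (opn ω) σ (s + 1) = τ
        rw [orb_succ, h1']
        exact h2
    rw [h]
    exact MeasurableSet.iUnion fun ρ => (ih ρ).inter (meas_nxt ρ τ)

theorem meas_fib (σ : St) (p : ℕ → St) : MeasurableSet {ω : Cf | ifc σ ω = p} := by
  have h : {ω : Cf | ifc σ ω = p} = ⋂ s : ℕ, {ω : Cf | ifc σ ω s = p s} := by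
    ext ω
    rw [Set.mem_iInter]
    exact funext_iff
  rw [h]
  exact MeasurableSet.iInter fun s => meas_ifc σ s (p s)

theorem meas_loop (σ τ : St) : MeasurableSet {ω : Cf | τ ∈ loop (opn ω) σ} := by
  have h : {ω : Cf | τ ∈ loop (opn ω) σ} = ⋃ s : ℕ, {ω : Cf | ifc σ ω s = τ} := by
    ext ω
    rw [Set.mem_iUnion]
    exact Iff.rfl
  rw [h]
  exact MeasurableSet.iUnion fun s => meas_ifc σ s τ

/-! ### closed interfaces -/

theorem orb_mod {F : Set Edg} {σ : St} {K : ℕ} (h : orb F σ K = σ) (s : ℕ) :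
    orb F σ s = orb F σ (s % K) := by
  have hmul : ∀ k : ℕ, orb F σ (k * K) = σ := by
    intro k
    induction k with
    | zero => simp
    | succ k ih => rw [Nat.succ_mul, orb_add, h, ih]
  conv_lhs => rw [← Nat.mod_add_div s K, Nat.mul_comm K, orb_add, hmul]

theorem orb_per {F : Set Edg} {σ : St} {K : ℕ} (h : orb F σ K = σ) (s k : ℕ) :
    orb F σ (s + k * K) = orb F σ s := by
  rw [orb_mod h (s + k * K), orb_mod h s, Nat.add_mul_mod_self_right]

/-- the values of a closed interface -/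
def Vals (σ : St) : Set (ℕ → St) :=
  {p | ∃ G : Finset Edg, Closed (↑G : Set Edg) σ ∧ p = orb (↑G : Set Edg) σ}

theorem vals_countable (σ : St) : (Vals σ).Countable := by
  have h : Vals σ ⊆ Set.range (fun G : Finset Edg => orb (↑G : Set Edg) σ) := by
    rintro p ⟨G, -, rfl⟩
    exact ⟨G, rfl⟩
  exact (Set.countable_range _).mono h

theorem mem_vals {σ : St} {ω : Cf} (h : Closed (opn ω) σ) : ifc σ ω ∈ Vals σ := by
  classical
  obtain ⟨K, hK, hK2⟩ := h
  set G : Finset Edg := ((Finset.range K).image (fun s => ae (orb (opn ω) σ s))).filter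
    (fun e => e ∈ opn ω) with hG
  have key : ∀ s, orb (↑G : Set Edg) σ s = orb (opn ω) σ s := by
    intro s
    induction s with
    | zero => rfl
    | succ s ih =>
      rw [orb_succ, orb_succ, ih]
      have h1 : ae (orb (opn ω) σ s) ∈ (↑G : Set Edg) ↔ ae (orb (opn ω) σ s) ∈ opn ω := by
        rw [Finset.mem_coe, hG, Finset.mem_filter]
        constructor
        · exact fun h => h.2
        · intro h
          refine ⟨?_, h⟩
          rw [Finset.mem_image]
          refine ⟨s % K, Finset.mem_range.mpr (Nat.mod_lt _ hK), ?_⟩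
          rw [← orb_mod hK2]
      by_cases h2 : ae (orb (opn ω) σ s) ∈ opn ω
      · rw [nxt_open h2, nxt_open (h1.mpr h2)]
      · rw [nxt_closed h2, nxt_closed (fun h => h2 (h1.mp h))]
  refine ⟨G, ⟨K, hK, ?_⟩, ?_⟩
  · rw [key, hK2]
  · funext s
    exact (key s).symm

theorem ifc_disc (σ : St) (h : ∀ᵐ ω ∂(bondLaw hlf), Closed (opn ω) σ) :
    Disc (bondLaw hlf) (ifc σ) (Vals σ) := by
  refine ⟨vals_countable σ, ?_, fun p _ => meas_fib σ p⟩
  filter_upwards [h] with ω hω
  exact mem_vals hω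

theorem per_of_vals {σ : St} {p : ℕ → St} (h : p ∈ Vals σ) :
    ∃ K, 0 < K ∧ ∀ s k : ℕ, p (s + k * K) = p s := by
  obtain ⟨G, ⟨K, hK, hK2⟩, rfl⟩ := h
  exact ⟨K, hK, fun s k => orb_per hK2 s k⟩

/-! ### cylinders -/

theorem ifc_cyl {σ : St} {η : Cf} {K : ℕ} (hK : 0 < K) (h : ∀ s k, ifc σ η (s + k * K) = ifc σ η s) :
    {ω | ifc σ ω = ifc σ η} = cyl (lex σ K η) η := by
  ext ω
  constructor
  · intro hω e he
    obtain ⟨s, -, rfl⟩ := Finset.mem_image.mp he
    exact ifc_det hω s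
  · intro hω
    have hω' : ∀ e ∈ lex σ K η, ω e = η e := hω
    show ifc σ ω = ifc σ η
    funext s
    induction s with
    | zero => rfl
    | succ s ih =>
      have ih' : orb (opn ω) σ s = orb (opn η) σ s := ih
      show orb (opn ω) σ (s + 1) = orb (opn η) σ (s + 1)
      rw [orb_succ, orb_succ, ih']
      apply nxt_congr
      apply hω'
      have e1 : ifc σ η s = ifc σ η (s % K) := by
        conv_lhs => rw [← Nat.mod_add_div s K, Nat.mul_comm K]
        exact h _ _
      have e2 : orb (opn η) σ s = ifc σ η (s % K) := e1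
      rw [e2]
      exact Finset.mem_image.mpr ⟨s % K, Finset.mem_range.mpr (Nat.mod_lt _ hK), rfl⟩

theorem two_states {ρ ρ' : St} (h : ae ρ = ae ρ') (hne : ρ ≠ ρ') : mv ρ = rt ρ' := by
  obtain ⟨⟨x, y⟩, q⟩ := ρ
  obtain ⟨⟨u, v⟩, r⟩ := ρ'
  cases q <;> cases r <;> simp at h hne ⊢ <;> omega

theorem compat {σ τ : St} {η ζ : Cf} {K L : ℕ} (hK : 0 < K)
    (hp : ∀ s k, ifc σ η (s + k * K) = ifc σ η s) (hL : 0 < L)
    (hq : ∀ s k, ifc τ ζ (s + k * L) = ifc τ ζ s)
    (hS : ¬ Split (ifc σ η) (ifc τ ζ)) {s t : ℕ} (h : ae (ifc σ η s) = ae (ifc τ ζ t)) :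
    η (toE (ae (ifc σ η s))) = ζ (toE (ae (ifc σ η s))) := by
  have hS' : ∀ s t, ifc σ η s = ifc τ ζ t → ifc σ η (s + 1) = ifc τ ζ (t + 1) := by
    intro s t hst
    by_contra hcon
    exact hS ⟨s, t, hst, hcon⟩
  have n1 : ifc σ η (s + 1) = nxt (opn η) (ifc σ η s) := orb_succ _ _ _
  have n2 : ifc τ ζ (t + 1) = nxt (opn ζ) (ifc τ ζ t) := orb_succ _ _ _
  by_contra hval
  have hst : ifc σ η s ≠ ifc τ ζ t := by
    intro hst
    have h1 := hS' s t hst
    rw [n1, n2, ← hst] at h1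
    exact hval (of_nxt_eq h1)
  have h5 : ifc σ η (s + 1) = ifc τ ζ (t + 1) := by
    rw [n1, n2, nxt_if, nxt_if, ← h]
    cases e1 : η (toE (ae (ifc σ η s))) <;> cases e2 : ζ (toE (ae (ifc σ η s)))
    · exact absurd (e1.trans e2.symm) hval
    · rw [if_neg (by simp), if_pos rfl]
      exact (two_states h.symm hst.symm).symm
    · rw [if_pos rfl, if_neg (by simp)]
      exact two_states h hst
    · exact absurd (e1.trans e2.symm) hval
  have h6 : ∀ n, ifc σ η (s + 1 + n) = ifc τ ζ (t + 1 + n) := by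
    intro n
    induction n with
    | zero => exact h5
    | succ n ih => exact hS' _ _ ih
  have hKL : 0 < K * L := Nat.mul_pos hK hL
  have h7 := h6 (K * L - 1)
  have e1 : s + 1 + (K * L - 1) = s + L * K := by rw [Nat.mul_comm L K]; omega
  have e2 : t + 1 + (K * L - 1) = t + K * L := by omega
  rw [e1, e2, hp, hq] at h7
  exact hst h7

/-- **The basic comparison.** -/
theorem joint_ge {σ τ : St} {a b : ℕ → St} (ha : a ∈ Vals σ) (hb : b ∈ Vals τ)
    (hab : ¬ Split a b) :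
    bondLaw hlf {ω | ifc σ ω = a} * bondLaw hlf {ω | ifc τ ω = b} ≤
      bondLaw hlf {ω | ifc σ ω = a ∧ ifc τ ω = b} := by
  classical
  by_cases hA : ∃ η, ifc σ η = a
  swap
  · have : {ω | ifc σ ω = a} = ∅ := by
      ext ω
      simp only [Set.mem_empty_iff_false, iff_false]
      exact fun h => hA ⟨ω, h⟩
    rw [this, measure_empty, zero_mul]
    exact zero_le
  by_cases hB : ∃ η, ifc τ η = b
  swap
  · have : {ω | ifc τ ω = b} = ∅ := by
      ext ω
      simp only [Set.mem_empty_iff_false, iff_false]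
      exact fun h => hB ⟨ω, h⟩
    rw [this, measure_empty, mul_zero]
    exact zero_le
  obtain ⟨K, hK, hp⟩ := per_of_vals ha
  obtain ⟨L, hL, hq⟩ := per_of_vals hb
  obtain ⟨η, rfl⟩ := hA
  obtain ⟨ζ, rfl⟩ := hB
  set T := lex σ K η with hT
  set U := lex τ L ζ with hU
  have hcl : ∀ e, e ∈ T → e ∈ U → η e = ζ e := by
    intro e h1 h2
    obtain ⟨s, -, rfl⟩ := Finset.mem_image.mp h1
    obtain ⟨t, -, ht⟩ := Finset.mem_image.mp h2
    exact compat hK hp hL hq hab (toE_inj ht).symm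
  set θ : Cf := fun e => if e ∈ T then η e else ζ e with hθ
  have hset : {ω | ifc σ ω = ifc σ η ∧ ifc τ ω = ifc τ ζ} = cyl (T ∪ U) θ := by
    have e1 : {ω | ifc σ ω = ifc σ η ∧ ifc τ ω = ifc τ ζ} = cyl T η ∩ cyl U ζ := by
      rw [← ifc_cyl hK hp, ← ifc_cyl hL hq]
      rfl
    rw [e1]
    ext ω
    constructor
    · rintro ⟨h1, h2⟩ e he
      rw [hθ]
      simp only
      split_ifs with hm
      · exact h1 e hm
      · rcases Finset.mem_union.mp he with h3 | h3
        · exact absurd h3 hm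
        · exact h2 e h3
    · intro h
      refine ⟨fun e he => ?_, fun e he => ?_⟩
      · have := h e (Finset.mem_union_left _ he)
        rw [hθ] at this
        simp only [he, if_true] at this
        exact this
      · have := h e (Finset.mem_union_right _ he)
        rw [hθ] at this
        simp only at this
        split_ifs at this with hm
        · rw [this, hcl e hm he]
        · exact this
  rw [hset, ifc_cyl hK hp, ifc_cyl hL hq, cyl_law, cyl_law, cyl_law, ← pow_add]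
  apply pow_le_pow_right_of_le_one' (by
    rw [ENNReal.inv_le_one]
    norm_num)
  exact Finset.card_union_le _ _

/-- the law -/
noncomputable abbrev μ : Measure Cf := bondLaw hlf

/-- the event that two independent interfaces meet and separate -/
def DD (σ τ : St) : Set (Cf × Cf) := {p | Split (ifc σ p.1) (ifc τ p.2)}

theorem tv_upper (hcl : ∀ σ : St, ∀ᵐ ω ∂μ, Closed (opn ω) σ) (σ τ : St)
    (S : Set ((ℕ → St) × (ℕ → St))) :
    |μ.real {ω | (ifc σ ω, ifc τ ω) ∈ S} -
      (μ.prod μ).real {p | (ifc σ p.1, ifc τ p.2) ∈ S}| ≤ (μ.prod μ).real (DD σ τ) :=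
  tv_le (ifc_disc σ (hcl σ)) (ifc_disc τ (hcl τ)) {q | Split q.1 q.2}
    (fun _ ha _ hb hab => joint_ge ha hb hab) S

theorem tv_exact (σ τ : St) :
    |μ.real {ω | Split (ifc σ ω) (ifc τ ω)} - (μ.prod μ).real (DD σ τ)| =
      (μ.prod μ).real (DD σ τ) := by
  have h1 : {ω : Cf | Split (ifc σ ω) (ifc τ ω)} = ∅ := by
    ext ω
    simp only [Set.mem_empty_iff_false, iff_false]
    rintro ⟨s, t, h1, h2⟩
    apply h2
    have n1 : ifc σ ω (s + 1) = nxt (opn ω) (ifc σ ω s) := orb_succ _ _ _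
    have n2 : ifc τ ω (t + 1) = nxt (opn ω) (ifc τ ω t) := orb_succ _ _ _
    rw [n1, n2, h1]
  rw [h1, measureReal_empty, zero_sub, abs_neg, abs_of_nonneg measureReal_nonneg]

theorem DD_meas (σ τ : St) : MeasurableSet (DD σ τ) := by
  have h : DD σ τ = ⋃ s : ℕ, ⋃ t : ℕ, ⋃ a : St, ⋃ b : St, ⋃ c ∈ {c : St | b ≠ c},
      ({ω : Cf | ifc σ ω s = a} ∩ {ω : Cf | ifc σ ω (s + 1) = b}) ×ˢ
        ({ω : Cf | ifc τ ω t = a} ∩ {ω : Cf | ifc τ ω (t + 1) = c}) := by
    ext p
    simp only [Set.mem_iUnion]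
    constructor
    · rintro ⟨s, t, h1, h2⟩
      exact ⟨s, t, ifc σ p.1 s, ifc σ p.1 (s + 1), ifc τ p.2 (t + 1), h2, ⟨rfl, rfl⟩,
        ⟨h1.symm, rfl⟩⟩
    · rintro ⟨s, t, a, b, c, hbc, ⟨h1, h2⟩, ⟨h3, h4⟩⟩
      have h1' : ifc σ p.1 s = a := h1
      have h2' : ifc σ p.1 (s + 1) = b := h2
      have h3' : ifc τ p.2 t = a := h3
      have h4' : ifc τ p.2 (t + 1) = c := h4
      refine ⟨s, t, h1'.trans h3'.symm, ?_⟩
      rw [h2', h4']
      exact hbc
  rw [h]
  refine MeasurableSet.iUnion fun s => MeasurableSet.iUnion fun t => MeasurableSet.iUnion fun a =>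
    MeasurableSet.iUnion fun b => MeasurableSet.biUnion (Set.to_countable _) fun c _ => ?_
  exact ((meas_ifc σ s a).inter (meas_ifc σ (s + 1) b)).prod
    ((meas_ifc τ t a).inter (meas_ifc τ (t + 1) c))

/-- A common state: the interfaces separate, or each of them visits the first state of the
other one. -/
theorem split_of_mem {σ τ x : St} {ω ω' : Cf} (h1 : Closed (opn ω) σ) (h2 : Closed (opn ω') τ)
    (hx : x ∈ loop (opn ω) σ) (hx' : x ∈ loop (opn ω') τ) :
    Split (ifc σ ω) (ifc τ ω') ∨ (τ ∈ loop (opn ω) σ ∧ σ ∈ loop (opn ω') τ) := by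
  by_cases hS : Split (ifc σ ω) (ifc τ ω')
  · exact Or.inl hS
  right
  have hS' : ∀ s t, ifc σ ω s = ifc τ ω' t → ifc σ ω (s + 1) = ifc τ ω' (t + 1) := by
    intro s t hst
    by_contra hcon
    exact hS ⟨s, t, hst, hcon⟩
  obtain ⟨s, hs⟩ := hx
  obtain ⟨t, ht⟩ := hx'
  have h6 : ∀ n, ifc σ ω (s + n) = ifc τ ω' (t + n) := by
    intro n
    induction n with
    | zero => exact hs.trans ht.symm
    | succ n ih => exact hS' _ _ ih
  obtain ⟨K, hK, hK2⟩ := h1
  obtain ⟨L, hL, hL2⟩ := h2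
  constructor
  · have h7 := h6 (t * L - t)
    have e1 : t + (t * L - t) = 0 + t * L := by
      have : t ≤ t * L := Nat.le_mul_of_pos_right t hL
      omega
    have h8 : ifc τ ω' (0 + t * L) = ifc τ ω' 0 := orb_per hL2 0 t
    rw [e1, h8] at h7
    exact ⟨_, h7⟩
  · have h7 := h6 (s * K - s)
    have e1 : s + (s * K - s) = 0 + s * K := by
      have : s ≤ s * K := Nat.le_mul_of_pos_right s hK
      omega
    have h8 : ifc σ ω (0 + s * K) = ifc σ ω 0 := orb_per hK2 0 s
    rw [e1, h8] at h7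
    exact ⟨_, h7.symm⟩

theorem mem_of_split {σ τ : St} {ω ω' : Cf} (h : Split (ifc σ ω) (ifc τ ω')) :
    ∃ x, x ∈ loop (opn ω) σ ∧ x ∈ loop (opn ω') τ := by
  obtain ⟨s, t, h1, -⟩ := h
  exact ⟨ifc σ ω s, ⟨s, rfl⟩, ⟨t, h1.symm⟩⟩

end Q292.LDep
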