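import Pool.Agent.Q292.LDep.At

/-!
The four corners of a vertex are on the interface of a given state with comparable
probabilities.
-/

set_option autoImplicit false

namespace Q292.LDep

open H974 Finset H984P MeasureTheory ProbabilityTheory Pool.Agent.Y993.LL Q292.TVY

theorem corner_det {F : Set Edg} {σ x : St} (h : x ∈ loop F (rt σ)) :
    x ∈ loop F σ ∨ x ∈ loop (F \ {ae σ}) σ := by
  classical
  by_cases he : ae σ ∈ F
  swap
  · left
    obtain ⟨s, rfl⟩ := h
    refine ⟨s + 1, ?_⟩
    rw [orb_add, orb_succ, orb_zero, nxt_closed he]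
  · have hex : ∃ s, orb F (rt σ) s = x := h
    set s := Nat.find hex with hs
    have hs1 : orb F (rt σ) s = x := Nat.find_spec hex
    by_cases h2 : ∃ s' < s, ae (orb F (rt σ) s') = ae σ
    · obtain ⟨s', hs', h3⟩ := h2
      by_cases h4 : orb F (rt σ) s' = σ
      · left
        refine ⟨s - s', ?_⟩
        rw [← hs1]
        have : s = (s - s') + s' := by omega
        conv_rhs => rw [this, orb_add, h4]
      · exfalso
        have h5 : orb F (rt σ) (s' + 1) = rt σ := by
          rw [orb_succ, nxt_open (h3 ▸ he)]
          exact two_states h3 h4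
        have h6 : orb F (rt σ) (s - (s' + 1)) = x := by
          rw [← hs1]
          have : s = (s - (s' + 1)) + (s' + 1) := by omega
          conv_rhs => rw [this, orb_add, h5]
        exact Nat.find_min hex (by omega) h6
    · push Not at h2
      right
      have key : ∀ t ≤ s, orb (F \ {ae σ}) (rt σ) t = orb F (rt σ) t := by
        intro t
        induction t with
        | zero => intro _; rfl
        | succ t ih =>
          intro ht
          rw [orb_succ, orb_succ, ih (by omega)]
          have h7 := h2 t (by omega)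
          by_cases h8 : ae (orb F (rt σ) t) ∈ F
          · rw [nxt_open h8, nxt_open (show _ ∈ F \ {ae σ} from ⟨h8, h7⟩)]
          · rw [nxt_closed h8, nxt_closed (fun h9 => h8 h9.1)]
      refine ⟨s + 1, ?_⟩
      rw [orb_add, orb_succ, orb_zero, nxt_closed (fun h9 => h9.2 rfl), key s le_rfl, hs1]

/-- close an edge -/
def upd (e : sqLattice.edgeSet) (ω : Cf) : Cf := Function.update ω e false

/-- change an edge -/
def flp (e : sqLattice.edgeSet) (ω : Cf) : Cf := fun i => if i = e then ! (ω i) else ω i

theorem flp_flp (e : sqLattice.edgeSet) (ω : Cf) : flp e (flp e ω) = ω := by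
  funext i
  unfold flp
  split_ifs <;> simp

theorem flp_meas (e : sqLattice.edgeSet) : Measurable (flp e) := by
  rw [measurable_pi_iff]
  intro i
  unfold flp
  split_ifs
  · exact (Measurable.of_discrete (f := fun b : Bool => ! b)).comp (measurable_pi_apply i)
  · exact measurable_pi_apply i

theorem upd_meas (e : sqLattice.edgeSet) : Measurable (upd e) := by
  rw [measurable_pi_iff]
  intro i
  unfold upd
  by_cases h : i = e
  · subst h
    simp only [Function.update_self]
    exact measurable_const
  · simp only [Function.update_of_ne h]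
    exact measurable_pi_apply i

theorem flp_law (e : sqLattice.edgeSet) : μ.map (flp e) = μ := by
  classical
  have h1 : ∀ i : sqLattice.edgeSet, (bernoulliMeasure true false hlf).map
      (fun b : Bool => if i = e then ! b else b) = bernoulliMeasure true false hlf := by
    intro i
    by_cases h : i = e
    · simp only [h, if_true]
      refine Measure.ext_of_singleton ?_
      intro b
      rw [Measure.map_apply Measurable.of_discrete (measurableSet_singleton _)]
      have : (fun b : Bool => ! b) ⁻¹' {b} = {! b} := by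
        ext c
        cases b <;> cases c <;> simp
      rw [this, Q292.CDep.bern_half, Q292.CDep.bern_half]
    · simp only [h, if_false]
      exact Measure.map_id
  unfold μ bondLaw
  have h2 := Measure.infinitePi_map_pi (μ := fun _ : sqLattice.edgeSet =>
    bernoulliMeasure true false hlf)
    (f := fun (i : sqLattice.edgeSet) (b : Bool) => if i = e then ! b else b)
    (fun i => Measurable.of_discrete)
  rw [show (fun (ω : Cf) (i : sqLattice.edgeSet) => if i = e then ! (ω i) else ω i) = flp e
    from rfl] at h2
  rw [h2]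
  congr 1
  funext i
  exact h1 i

/-- Finite energy. -/
theorem upd_le (e : sqLattice.edgeSet) {E : Set Cf} (hE : MeasurableSet E) :
    μ.real {ω | upd e ω ∈ E} ≤ 2 * μ.real E := by
  have hE' : MeasurableSet {ω | upd e ω ∈ E} := upd_meas e hE
  have hTc : MeasurableSet {ω : Cf | ω e = false} := by
    have h : MeasurableSet ((fun ω : Cf => ω e) ⁻¹' {false}) :=
      measurable_pi_apply e (measurableSet_singleton false)
    exact h
  have h1 : {ω | upd e ω ∈ E} ∩ {ω : Cf | ω e = false} ⊆ E := by
    rintro ω ⟨h1, h2⟩
    have h1' : upd e ω ∈ E := h1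
    have h2' : ω e = false := h2
    have : upd e ω = ω := by
      unfold upd
      rw [← h2']
      exact Function.update_eq_self e ω
    rwa [this] at h1'
  have h2 : μ.real ({ω | upd e ω ∈ E} ∩ {ω : Cf | ω e = true}) =
      μ.real ({ω | upd e ω ∈ E} ∩ {ω : Cf | ω e = false}) := by
    have h3 : flp e ⁻¹' ({ω | upd e ω ∈ E} ∩ {ω : Cf | ω e = false}) =
        {ω | upd e ω ∈ E} ∩ {ω : Cf | ω e = true} := by
      ext ω
      have h4 : upd e (flp e ω) = upd e ω := by
        funext i
        unfold upd flp
        by_cases hi : i = e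
        · subst hi
          simp
        · simp [Function.update_of_ne hi, hi]
      have h5 : flp e ω e = false ↔ ω e = true := by
        unfold flp
        simp
      show (upd e (flp e ω) ∈ E ∧ flp e ω e = false) ↔ (upd e ω ∈ E ∧ ω e = true)
      rw [h4, h5]
    rw [← h3, measureReal_def, measureReal_def, ← Measure.map_apply (flp_meas e)
      (hE'.inter hTc), flp_law]
  have h3 : {ω | upd e ω ∈ E} ⊆ ({ω | upd e ω ∈ E} ∩ {ω : Cf | ω e = true}) ∪
      ({ω | upd e ω ∈ E} ∩ {ω : Cf | ω e = false}) := by
    intro ω hω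
    cases h : ω e
    · exact Or.inr ⟨hω, h⟩
    · exact Or.inl ⟨hω, h⟩
  have h4 := (measureReal_mono (μ := μ) h3).trans (measureReal_union_le _ _)
  have h5 : μ.real ({ω | upd e ω ∈ E} ∩ {ω : Cf | ω e = false}) ≤ μ.real E := measureReal_mono h1
  rw [h2] at h4
  linarith

/-- the probability that `x` is on the interface of `σ` -/
noncomputable def pl (σ x : St) : ℝ := μ.real {ω | x ∈ loop (opn ω) σ}

theorem pl_nonneg (σ x : St) : 0 ≤ pl σ x := measureReal_nonneg

theorem corner_rt (σ x : St) : pl (rt σ) x ≤ 3 * pl σ x := by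
  have h1 : {ω : Cf | x ∈ loop (opn ω) (rt σ)} ⊆ {ω : Cf | x ∈ loop (opn ω) σ} ∪
      {ω : Cf | upd (toE (ae σ)) ω ∈ {ω : Cf | x ∈ loop (opn ω) σ}} := by
    intro ω hω
    rcases corner_det (show x ∈ loop (opn ω) (rt σ) from hω) with h | h
    · exact Or.inl h
    · right
      have h2 : opn (upd (toE (ae σ)) ω) = opn ω \ {ae σ} := by
        ext e
        show upd (toE (ae σ)) ω (toE e) = true ↔ (ω (toE e) = true ∧ e ∉ ({ae σ} : Set Edg))
        unfold upd
        by_cases he : e = ae σ
        · subst he
          simp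
        · have : toE e ≠ toE (ae σ) := fun h => he (toE_inj h)
          rw [Function.update_of_ne this]
          simp [he]
      show x ∈ loop (opn (upd (toE (ae σ)) ω)) σ
      rw [h2]
      exact h
  have h2 := (measureReal_mono (μ := μ) h1).trans (measureReal_union_le _ _)
  have h3 := upd_le (toE (ae σ)) (meas_loop σ x)
  unfold pl
  linarith

theorem corner_all (v : Vtx) (q q' : Q4) (x : St) : pl (v, q) x ≤ 27 * pl (v, q') x := by
  have h1 := corner_rt (v, Q4.ne) x
  have h2 := corner_rt (v, Q4.se) x
  have h3 := corner_rt (v, Q4.sw) x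
  have h4 := corner_rt (v, Q4.nw) x
  obtain ⟨a, b⟩ := v
  rw [rt_ne] at h1
  rw [rt_se] at h2
  rw [rt_sw] at h3
  rw [rt_nw] at h4
  have p1 := pl_nonneg ((a, b), Q4.ne) x
  have p2 := pl_nonneg ((a, b), Q4.se) x
  have p3 := pl_nonneg ((a, b), Q4.sw) x
  have p4 := pl_nonneg ((a, b), Q4.nw) x
  cases q <;> cases q' <;> linarith

theorem pl_symm (hcl : ∀ σ : St, ∀ᵐ ω ∂μ, Closed (opn ω) σ) (σ x : St) : pl σ x = pl x σ := by
  apply measureReal_congr
  filter_upwards [hcl σ, hcl x] with ω h1 h2
  apply propext
  show x ∈ loop (opn ω) σ ↔ σ ∈ loop (opn ω) x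
  rw [mem_loop h1, mem_loop h2]
  exact ⟨fun h => Conn.symm h, fun h => Conn.symm h⟩

theorem pl_conn (hcl : ∀ σ : St, ∀ᵐ ω ∂μ, Closed (opn ω) σ) (σ x : St) :
    pl σ x = μ.real {ω | Conn (opn ω) σ x} := by
  apply measureReal_congr
  filter_upwards [hcl σ] with ω h1
  exact propext (mem_loop h1 x)

theorem corner_two (hcl : ∀ σ : St, ∀ᵐ ω ∂μ, Closed (opn ω) σ) (v w : Vtx) (q q' r r' : Q4) :
    pl (v, q) (w, r) ≤ 729 * pl (v, q') (w, r') := by
  have h1 := corner_all v q q' (w, r)
  have h2 := corner_all w r r' (v, q')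
  rw [pl_symm hcl (w, r), pl_symm hcl (w, r')] at h2
  linarith

end Q292.LDep
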