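import Pool.Agent.Q292.LDep.Ann

/-!
Upper bounds for the probability that two or three states are on the same interface.
-/

set_option autoImplicit false

namespace Q292.LDep

open H974 Finset H342P H984P H984H MeasureTheory Pool.Agent.Y993.LL

theorem one_le_qr {M : ℝ} {t : ℝ} (ht : 0 < t) (hM : 1 ≤ M) (h : t ≤ M) : 1 ≤ M * qr t := by
  have := qr_le (x := 1) (y := t) (M := M) one_pos ht hM (by linarith)
  rwa [qr_one] at this

theorem two_of_far {F : Set Edg} {σ τ : St} {k : ℕ} {D : ℤ} (hk : 0 < k) (h : Conn F σ τ)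
    (hf : Far σ.1 D τ.1) (hD : (k : ℤ) + 1 ≤ D) : Two σ.1 (face σ) k F := by
  refine two_of_conn (by exact_mod_cast hk) h ?_
  unfold Far at hf ⊢
  omega

theorem two_up {C : ℝ} (hU : TwoUp C (1/4)) {σ τ : St} {k : ℕ} {D : ℤ} (hk : 0 < k)
    (hf : Far σ.1 D τ.1) (hD : (k : ℤ) + 1 ≤ D) :
    μ.real {ω | Conn (opn ω) σ τ} ≤ C * qr k := by
  have h1 := law_two hU (u := σ.1) (f := face σ) (k := (k : ℤ)) (by exact_mod_cast hk)
    (inc_face σ)
  refine le_trans (measureReal_mono ?_) (h1.trans (le_of_eq ?_))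
  · intro ω hω
    exact two_of_far hk hω hf hD
  · unfold qr
    push_cast
    rfl

/-- Two states. -/
theorem pair_up {C : ℝ} (hC : 0 < C) (hU : TwoUp C (1/4)) : ∃ C' : ℝ, 1 ≤ C' ∧
    ∀ (ρ₁ ρ₂ : St) (D : ℕ), 1 ≤ D → Far ρ₁.1 D ρ₂.1 →
      μ.real {ω | Conn (opn ω) ρ₁ ρ₂} ≤ C' * (qr D * qr D) := by
  refine ⟨4 + 16 * C ^ 2, by nlinarith [sq_nonneg C], ?_⟩
  intro ρ₁ ρ₂ D hD hf
  have hD0 : (0 : ℝ) < D := by exact_mod_cast hD
  have hq := qr_pos hD0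
  have hqq : 0 < qr D * qr D := by positivity
  by_cases h2 : D ≤ 2
  · have h1 := one_le_qr hD0 (M := 2) (by norm_num) (by exact_mod_cast h2)
    have h3 : μ.real {ω | Conn (opn ω) ρ₁ ρ₂} ≤ 1 := measureReal_le_one
    have h4 : 1 ≤ 4 * (qr D * qr D) := by nlinarith
    have h5 : 0 ≤ 16 * C ^ 2 * (qr D * qr D) := by positivity
    nlinarith
  · push Not at h2
    obtain ⟨k, hk⟩ : ∃ k : ℕ, k = (D - 1) / 2 := ⟨_, rfl⟩
    have hk0 : 0 < k := by omega
    have hkD : 2 * k < D := by omega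
    have hDk : D ≤ 4 * k := by omega
    have hkR : (0 : ℝ) < k := by exact_mod_cast hk0
    have hqk : qr k ≤ 4 * qr D := qr_le hkR hD0 (by norm_num) (by exact_mod_cast hDk)
    have hqk0 := qr_pos hkR
    set S : Finset Edg := bx ρ₁.1 k ∪ bx ρ₂.1 k with hS
    have key := ind2 (S := S) (T := bx ρ₁.1 k) (U := bx ρ₂.1 k)
      Finset.subset_union_left Finset.subset_union_right
      (bx_disj hf (by omega)) (two_loc' ρ₁.1 (face ρ₁) hk0) (two_loc' ρ₂.1 (face ρ₂) hk0)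
      (pr_two' hU hk0 Finset.subset_union_left) (pr_two' hU hk0 Finset.subset_union_right)
    refine (law_le (S := S) (A := fun F => Two ρ₁.1 (face ρ₁) k (↑F) ∧
      Two ρ₂.1 (face ρ₂) k (↑F)) ?_).trans (key.1.trans ?_)
    · intro ω hω
      have hω' : Conn (opn ω) ρ₁ ρ₂ := hω
      have hk0' : (0 : ℤ) < k := by exact_mod_cast hk0
      refine ⟨(two_FF hk0' Finset.subset_union_left ω).1 (two_of_far hk0 hω' hf (by omega)),
        (two_FF hk0' Finset.subset_union_right ω).1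
          (two_of_far hk0 hω'.symm (far_symm hf) (by omega))⟩
    · have e1 : C * (k : ℝ) ^ (-(1/4) : ℝ) * (C * (k : ℝ) ^ (-(1/4) : ℝ)) =
          C ^ 2 * (qr k * qr k) := by unfold qr; ring
      rw [e1]
      have h3 : qr k * qr k ≤ 16 * (qr D * qr D) := by nlinarith
      have h4 : C ^ 2 * (qr k * qr k) ≤ C ^ 2 * (16 * (qr D * qr D)) :=
        mul_le_mul_of_nonneg_left h3 (sq_nonneg _)
      nlinarith

/-- Three states, case of two close ones. -/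
theorem tri_close {C C2 : ℝ} (hC : 0 < C) (hU : TwoUp C (1/4)) (hC2 : 0 < C2) (hA : AnnUp C2)
    {ρ₁ ρ₂ ρ₃ : St} {d D : ℕ} (hd : 3 ≤ d) (hdD : 24 * d + 24 ≤ D) (h12 : Far ρ₁.1 d ρ₂.1)
    (h12' : |ρ₁.1.1 - ρ₂.1.1| ≤ d ∧ |ρ₁.1.2 - ρ₂.1.2| ≤ d) (h13 : Far ρ₁.1 D ρ₃.1) :
    μ.real {ω | Conn (opn ω) ρ₁ ρ₂ ∧ Conn (opn ω) ρ₁ ρ₃} ≤
      C ^ 3 * C2 * 3000 * (qr d * (qr D * qr D)) := by
  obtain ⟨k, hk⟩ : ∃ k : ℕ, k = (d - 1) / 2 := ⟨_, rfl⟩
  obtain ⟨M, hM⟩ : ∃ M : ℕ, M = D / 3 := ⟨_, rfl⟩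
  have hk0 : 0 < k := by omega
  have hkd : 2 * k < d := by omega
  have hdk : d ≤ 4 * k := by omega
  have hM0 : 0 < M := by omega
  have hMd : (d + k) + 2 ≤ M := by omega
  have hMD : 2 * M < D := by omega
  have hDM : D ≤ 4 * M := by omega
  have hk0' : (0 : ℤ) < k := by exact_mod_cast hk0
  have hM0' : (0 : ℤ) < M := by exact_mod_cast hM0
  have b1 : bx ρ₁.1 k ⊆ bx ρ₁.1 ((d + k : ℕ) : ℤ) := by
    apply bx_mem (d := 0)
    · constructor <;> simp
    · push_cast; omega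
  have b2 : bx ρ₂.1 k ⊆ bx ρ₁.1 ((d + k : ℕ) : ℤ) := bx_mem h12' (by push_cast; omega)
  set X := AX ρ₁.1 (d + k) M with hX
  have dX : Disjoint (bx ρ₁.1 ((d + k : ℕ) : ℤ)) X := Finset.disjoint_sdiff
  have dM : Disjoint (bx ρ₁.1 M) (bx ρ₃.1 M) := bx_disj h13 (by omega)
  have d12 : Disjoint (bx ρ₁.1 k) (bx ρ₂.1 k) := bx_disj h12 (by omega)
  have d12' : bx ρ₁.1 k ∪ bx ρ₂.1 k ⊆ bx ρ₁.1 ((d + k : ℕ) : ℤ) := Finset.union_subset b1 b2
  have bM : bx ρ₁.1 ((d + k : ℕ) : ℤ) ⊆ bx ρ₁.1 M := by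
    apply bx_mem (d := 0)
    · constructor <;> simp
    · push_cast; omega
  have XM : X ⊆ bx ρ₁.1 M := Finset.sdiff_subset
  set S : Finset Edg := bx ρ₁.1 M ∪ bx ρ₃.1 M with hS
  have s1 : bx ρ₁.1 k ⊆ S := b1.trans (bM.trans Finset.subset_union_left)
  have s2 : bx ρ₂.1 k ⊆ S := b2.trans (bM.trans Finset.subset_union_left)
  have sX : X ⊆ S := XM.trans Finset.subset_union_left
  have s3 : bx ρ₃.1 M ⊆ S := Finset.subset_union_right
  obtain ⟨k1, l1⟩ := ind2 s1 s2 d12 (two_loc' ρ₁.1 (face ρ₁) hk0) (two_loc' ρ₂.1 (face ρ₂) hk0)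
    (pr_two' hU hk0 s1) (pr_two' hU hk0 s2)
  obtain ⟨k2, l2⟩ := ind2 (Finset.union_subset s1 s2) sX
    (Finset.disjoint_of_subset_left d12' dX) l1 (an_loc ρ₁.1 (d + k) M) k1
    (pr_an hA (by omega) sX)
  obtain ⟨k3, -⟩ := ind2 (Finset.union_subset (Finset.union_subset s1 s2) sX) s3
    (Finset.disjoint_of_subset_left (Finset.union_subset (d12'.trans bM) XM) dM) l2
    (two_loc' ρ₃.1 (face ρ₃) hM0) k2 (pr_two' hU hM0 s3)
  refine (law_le (S := S) (A := fun F => ((Two ρ₁.1 (face ρ₁) k (↑F) ∧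
    Two ρ₂.1 (face ρ₂) k (↑F)) ∧ An ρ₁.1 (d + k) M (↑F)) ∧ Two ρ₃.1 (face ρ₃) M (↑F))
    ?_).trans (k3.trans ?_)
  · rintro ω ⟨h1, h2⟩
    refine ⟨⟨⟨?_, ?_⟩, ?_⟩, ?_⟩
    · exact (two_FF hk0' s1 ω).1 (two_of_far hk0 h1 h12 (by omega))
    · exact (two_FF hk0' s2 ω).1 (two_of_far hk0 h1.symm (far_symm h12) (by omega))
    · refine (FF_an sX ω).1 (an_of_conn h2 ?_ ?_ hMd)
      · rw [mem_ctr']; omega
      · unfold Far at h13 ⊢; omega
    · exact (two_FF hM0' s3 ω).1 (two_of_far hM0 h2.symm (far_symm h13) (by omega))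
  · have hkR : (0 : ℝ) < k := by exact_mod_cast hk0
    have hMR : (0 : ℝ) < M := by exact_mod_cast hM0
    have hdR : (0 : ℝ) < d := by
      have : 0 < d := by omega
      exact_mod_cast this
    have hDR : (0 : ℝ) < D := by
      have : 0 < D := by omega
      exact_mod_cast this
    have q1 : qr k ≤ 4 * qr d := qr_le hkR hdR (by norm_num) (by exact_mod_cast hdk)
    have q2 : qr M ≤ 4 * qr D := qr_le hMR hDR (by norm_num) (by exact_mod_cast hDM)
    have q1' := qr_pos hkR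
    have q2' := qr_pos hMR
    have q3' := qr_pos hdR
    have q4' := qr_pos hDR
    have hx : (0 : ℝ) < 2 * d := by positivity
    have hle : (((d + k : ℕ) : ℝ)) + 1 ≤ 2 * d := by
      have : d + k + 1 ≤ 2 * d := by omega
      exact_mod_cast this
    have hf := an_fac (k := d + k) (R := M) (x := 2 * d) (by omega) hx hle
    have q5 : qr d ≤ 2 * qr (2 * d) := qr_le hdR hx (by norm_num) le_rfl
    have q5' := qr_pos hx
    set Y := ((((d + k) + 1 : ℕ) : ℝ) / M) ^ (1/4 : ℝ) with hY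
    have hY0 : 0 ≤ Y := by positivity
    have e1 : C * (k : ℝ) ^ (-(1/4) : ℝ) * (C * (k : ℝ) ^ (-(1/4) : ℝ)) * (C2 * Y) *
        (C * (M : ℝ) ^ (-(1/4) : ℝ)) = C ^ 3 * C2 * ((qr k * qr k * Y) * qr M) := by
      unfold qr; ring
    rw [e1]
    have h1 : Y * qr d ≤ 2 * qr M := by
      calc Y * qr d ≤ Y * (2 * qr (2 * d)) := mul_le_mul_of_nonneg_left q5 hY0
        _ = 2 * (Y * qr (2 * d)) := by ring
        _ ≤ 2 * qr M := by linarith
    have h2 : qr k * qr k * Y ≤ 32 * (qr d * qr M) := by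
      calc qr k * qr k * Y ≤ (4 * qr d) * (4 * qr d) * Y := by
            apply mul_le_mul_of_nonneg_right _ hY0
            exact mul_le_mul q1 q1 q1'.le (by positivity)
        _ = 16 * qr d * (Y * qr d) := by ring
        _ ≤ 16 * qr d * (2 * qr M) := mul_le_mul_of_nonneg_left h1 (by positivity)
        _ = 32 * (qr d * qr M) := by ring
    have h3 : (qr k * qr k * Y) * qr M ≤ 512 * (qr d * (qr D * qr D)) := by
      calc (qr k * qr k * Y) * qr M ≤ 32 * (qr d * qr M) * qr M :=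
            mul_le_mul_of_nonneg_right h2 q2'.le
        _ = 32 * qr d * (qr M * qr M) := by ring
        _ ≤ 32 * qr d * ((4 * qr D) * (4 * qr D)) :=
            mul_le_mul_of_nonneg_left (mul_le_mul q2 q2 q2'.le (by positivity)) (by positivity)
        _ = 512 * (qr d * (qr D * qr D)) := by ring
    have hX0 : 0 < qr d * (qr D * qr D) := by positivity
    calc C ^ 3 * C2 * ((qr k * qr k * Y) * qr M) ≤
          C ^ 3 * C2 * (512 * (qr d * (qr D * qr D))) :=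
          mul_le_mul_of_nonneg_left h3 (by positivity)
      _ = C ^ 3 * C2 * 512 * (qr d * (qr D * qr D)) := by ring
      _ ≤ C ^ 3 * C2 * 3000 * (qr d * (qr D * qr D)) := by
          apply mul_le_mul_of_nonneg_right _ hX0.le
          apply mul_le_mul_of_nonneg_left (by norm_num) (by positivity)

/-- Three states at comparable distances. -/
theorem tri_far {C : ℝ} (hU : TwoUp C (1/4))
    {ρ₁ ρ₂ ρ₃ : St} {k : ℕ} {d : ℤ} (hk0 : 0 < k) (hkd : 2 * (k : ℤ) < d) (h12 : Far ρ₁.1 d ρ₂.1)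
    (h13 : Far ρ₁.1 d ρ₃.1) (h23 : Far ρ₂.1 d ρ₃.1) :
    μ.real {ω | Conn (opn ω) ρ₁ ρ₂ ∧ Conn (opn ω) ρ₁ ρ₃} ≤ C ^ 3 * (qr k * (qr k * qr k)) := by
  have hk0' : (0 : ℤ) < k := by exact_mod_cast hk0
  set S : Finset Edg := bx ρ₁.1 k ∪ bx ρ₂.1 k ∪ bx ρ₃.1 k with hS
  have s1 : bx ρ₁.1 k ⊆ S := Finset.subset_union_left.trans Finset.subset_union_left
  have s2 : bx ρ₂.1 k ⊆ S := Finset.subset_union_right.trans Finset.subset_union_left
  have s3 : bx ρ₃.1 k ⊆ S := Finset.subset_union_right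
  obtain ⟨k1, l1⟩ := ind2 s1 s2 (bx_disj h12 (by omega)) (two_loc' ρ₁.1 (face ρ₁) hk0)
    (two_loc' ρ₂.1 (face ρ₂) hk0) (pr_two' hU hk0 s1) (pr_two' hU hk0 s2)
  obtain ⟨k3, -⟩ := ind2 (Finset.union_subset s1 s2) s3
    (Finset.disjoint_union_left.mpr ⟨bx_disj h13 (by omega), bx_disj h23 (by omega)⟩) l1
    (two_loc' ρ₃.1 (face ρ₃) hk0) k1 (pr_two' hU hk0 s3)
  refine (law_le (S := S) (A := fun F => (Two ρ₁.1 (face ρ₁) k (↑F) ∧
    Two ρ₂.1 (face ρ₂) k (↑F)) ∧ Two ρ₃.1 (face ρ₃) k (↑F)) ?_).trans (k3.trans ?_)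
  · rintro ω ⟨h1, h2⟩
    refine ⟨⟨?_, ?_⟩, ?_⟩
    · exact (two_FF hk0' s1 ω).1 (two_of_far hk0 h1 h12 (by omega))
    · exact (two_FF hk0' s2 ω).1 (two_of_far hk0 h1.symm (far_symm h12) (by omega))
    · exact (two_FF hk0' s3 ω).1 (two_of_far hk0 h2.symm (far_symm h13) (by omega))
  · apply le_of_eq
    unfold qr
    ring

/-- **Three states on the same interface.** -/
theorem tri_up {C C2 : ℝ} (hC : 0 < C) (hU : TwoUp C (1/4)) (hC2 : 0 < C2) (hA : AnnUp C2) :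
    ∃ C' : ℝ, 1 ≤ C' ∧ ∀ (ρ₁ ρ₂ ρ₃ : St) (d D : ℕ), 1 ≤ d → 1 ≤ D → d ≤ 3 * D →
      Far ρ₁.1 d ρ₂.1 → (|ρ₁.1.1 - ρ₂.1.1| ≤ d ∧ |ρ₁.1.2 - ρ₂.1.2| ≤ d) →
      Far ρ₁.1 D ρ₃.1 → Far ρ₂.1 D ρ₃.1 →
      μ.real {ω | Conn (opn ω) ρ₁ ρ₂ ∧ Conn (opn ω) ρ₁ ρ₃} ≤ C' * (qr d * (qr D * qr D)) := by
  obtain ⟨C3, hC3, h3⟩ := pair_up hC hU
  refine ⟨2 * C3 + C ^ 3 * C2 * 3000 + (96 ^ 3 + C ^ 3 * 192 ^ 3), by
    have : 0 < C ^ 3 * C2 * 3000 := by positivity
    have : 0 < C ^ 3 * 192 ^ 3 := by positivity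
    linarith, ?_⟩
  intro ρ₁ ρ₂ ρ₃ d D hd hD hdD h12 h12' h13 h23
  have hdR : (0 : ℝ) < d := by exact_mod_cast hd
  have hDR : (0 : ℝ) < D := by exact_mod_cast hD
  have p1 := qr_pos hdR
  have p2 := qr_pos hDR
  set X := qr d * (qr D * qr D) with hX
  have hX0 : 0 < X := by positivity
  have t1 : 0 ≤ 2 * C3 * X := by positivity
  have t2 : 0 ≤ C ^ 3 * C2 * 3000 * X := by positivity
  have t3 : 0 ≤ 96 ^ 3 * X := by positivity
  have t4 : 0 ≤ C ^ 3 * 192 ^ 3 * X := by positivity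
  by_cases c1 : 24 * d + 24 ≤ D
  · by_cases c2 : 3 ≤ d
    · have := tri_close hC hU hC2 hA c2 c1 h12 h12' h13
      nlinarith
    · have h4 : μ.real {ω | Conn (opn ω) ρ₁ ρ₂ ∧ Conn (opn ω) ρ₁ ρ₃} ≤
          μ.real {ω | Conn (opn ω) ρ₁ ρ₃} := measureReal_mono fun ω h => h.2
      have h5 := h3 ρ₁ ρ₃ D hD h13
      have h6 : 1 ≤ 2 * qr d := one_le_qr hdR (by norm_num) (by
        have : d ≤ 2 := by omega
        exact_mod_cast this)
      have h7 : C3 * (qr D * qr D) ≤ 2 * C3 * X := by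
        rw [hX]
        have : 0 < C3 * (qr D * qr D) := by positivity
        nlinarith
      linarith
  · push Not at c1
    by_cases c2 : d ≤ 2 ∨ D ≤ 2
    · have hd96 : (d : ℝ) ≤ 96 := by
        have : d ≤ 96 := by omega
        exact_mod_cast this
      have hD96 : (D : ℝ) ≤ 96 := by
        have : D ≤ 96 := by omega
        exact_mod_cast this
      have h6 : 1 ≤ 96 * qr d := one_le_qr hdR (by norm_num) hd96
      have h7 : 1 ≤ 96 * qr D := one_le_qr hDR (by norm_num) hD96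
      have h8 : 1 ≤ 96 ^ 3 * X := by
        have e : 96 ^ 3 * X = (96 * qr d) * ((96 * qr D) * (96 * qr D)) := by rw [hX]; ring
        rw [e]
        have h9 : 1 ≤ (96 * qr D) * (96 * qr D) := by nlinarith
        nlinarith
      have h3 : μ.real {ω | Conn (opn ω) ρ₁ ρ₂ ∧ Conn (opn ω) ρ₁ ρ₃} ≤ 1 := measureReal_le_one
      linarith
    · push Not at c2
      obtain ⟨k, hk⟩ : ∃ k : ℕ, k = (min d D - 1) / 2 := ⟨_, rfl⟩
      have hk0 : 0 < k := by omega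
      have hk1 : 2 * k < d := by omega
      have hk2 : 2 * k < D := by omega
      have hk3 : d ≤ 192 * k := by omega
      have hk4 : D ≤ 192 * k := by omega
      have hkR : (0 : ℝ) < k := by exact_mod_cast hk0
      have q1 : qr k ≤ 192 * qr d := qr_le hkR hdR (by norm_num) (by exact_mod_cast hk3)
      have q2 : qr k ≤ 192 * qr D := qr_le hkR hDR (by norm_num) (by exact_mod_cast hk4)
      have q0 := qr_pos hkR
      have h5 := tri_far hU (ρ₁ := ρ₁) (ρ₂ := ρ₂) (ρ₃ := ρ₃) (k := k)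
        (d := 2 * (k : ℤ) + 1) hk0 (by omega)
        (by unfold Far at h12 ⊢; omega) (by unfold Far at h13 ⊢; omega)
        (by unfold Far at h23 ⊢; omega)
      have h6 : qr k * (qr k * qr k) ≤ 192 ^ 3 * X := by
        calc qr k * (qr k * qr k) ≤ (192 * qr d) * ((192 * qr D) * (192 * qr D)) := by
              apply mul_le_mul q1 _ (by positivity) (by positivity)
              exact mul_le_mul q2 q2 q0.le (by positivity)
          _ = 192 ^ 3 * X := by rw [hX]; ring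
      have h7 : C ^ 3 * (qr k * (qr k * qr k)) ≤ C ^ 3 * (192 ^ 3 * X) :=
        mul_le_mul_of_nonneg_left h6 (by positivity)
      linarith

end Q292.LDep
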