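import Pool.Agent.Q292.LDep.TwoPt
import Pool.Agent.Q292.LDep.Tri

/-!
Lower bound for the probability that two states are on the same interface, all positions and
corners.
-/

set_option autoImplicit false

namespace Q292.LDep

open H974 Finset H342P H984P MeasureTheory Pool.Agent.Y993.LL

theorem cc_symm {S F : Finset Edg} {σ τ : St} (h : CC S F σ τ) : CC S F τ σ :=
  ⟨h.1.symm, h.2.symm⟩

theorem cc_law (hcl : ∀ σ : St, ∀ᵐ ω ∂μ, Closed (opn ω) σ) (S : Finset Edg) (σ τ : St) :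
    Pr (fun _ => (1/2:ℝ)) S (fun F => CC S F σ τ) ≤ pl σ τ := by
  rw [pl_conn hcl]
  refine le_law ?_
  filter_upwards with ω h
  exact conn_of_fin h.1 h.2

theorem horiz {c : ℝ} (hc : 0 < c) (hL : LowA c (1/4)) : ∃ c' : ℝ, 0 < c' ∧
    ∀ (v w : Vtx) (R : ℕ), 112 ≤ R → |v.1 - w.1| = R → |v.2 - w.2| ≤ R →
      ∃ S : Finset Edg, c' * (qr R * qr R) ≤
        Pr (fun _ => (1/2:ℝ)) S (fun F => CC S F (v, Q4.ne) (w, Q4.ne)) := by
  have k0 := κ0_pos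
  refine ⟨(κ0 * κ0 * κ0) * (κ0 * κ0 * κ0) * (c * c), by positivity, ?_⟩
  have key : ∀ (v w : Vtx) (R : ℕ), 112 ≤ R → |v.1 - w.1| = R → v.2 ≤ w.2 →
      w.2 - v.2 ≤ R → ∃ S : Finset Edg,
      (κ0 * κ0 * κ0) * (κ0 * κ0 * κ0) * (c * c) * (qr R * qr R) ≤
        Pr (fun _ => (1/2:ℝ)) S (fun F => CC S F (v, Q4.ne) (w, Q4.ne)) := by
    intro v w R hR h1 h2 h3
    obtain ⟨b, hb⟩ : ∃ b : ℕ, b = R / 28 := ⟨_, rfl⟩
    have h1' : v.1 - w.1 = R ∨ w.1 - v.1 = R := by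
      rcases abs_choice (v.1 - w.1) with h | h <;> rw [h] at h1 <;> omega
    have hpos : Pos v w (min v.1 w.1 - 13 * b) (max v.1 w.1 + 14 * b) b := by
      constructor <;> omega
    refine ⟨_, le_trans ?_ (twopt_ne hc hL hpos)⟩
    have hbR : (b : ℝ) ≤ 1 * R := by
      have : b ≤ R := by omega
      rw [one_mul]
      exact_mod_cast this
    have hb0 : (0 : ℝ) < b := by
      have : 0 < b := by omega
      exact_mod_cast this
    have hR0 : (0 : ℝ) < R := by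
      have : 0 < R := by omega
      exact_mod_cast this
    have hq : qr R ≤ 1 * qr b := qr_le hR0 hb0 le_rfl hbR
    rw [one_mul] at hq
    have e : (κ0 * κ0 * κ0) * (κ0 * κ0 * κ0) * (c * (b:ℝ) ^ (-(1/4:ℝ))) *
        (c * (b:ℝ) ^ (-(1/4:ℝ))) =
        (κ0 * κ0 * κ0) * (κ0 * κ0 * κ0) * (c * c) * (qr b * qr b) := by
      unfold qr; ring
    rw [e]
    apply mul_le_mul_of_nonneg_left _ (by positivity)
    exact mul_le_mul hq hq (qr_pos hR0).le (qr_pos hb0).le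
  intro v w R hR h1 h2
  rw [abs_le] at h2
  rcases le_total v.2 w.2 with h3 | h3
  · exact key v w R hR h1 h3 (by omega)
  · obtain ⟨S, hS⟩ := key w v R hR (by rw [abs_sub_comm]; exact h1) h3 (by omega)
    exact ⟨S, hS.trans (Pr_mono ok2 fun F _ h => cc_symm h)⟩

theorem cc_rot {S F : Finset Edg} {σ τ : St} (h : CC S F σ τ) :
    CC (rM S) (rM F) (rS σ) (rS τ) := by
  refine ⟨rot_reach.2 h.1, ?_⟩
  rw [rot_face, rot_face, ← rM_sdiff]
  exact dreach_rM h.2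

theorem pr_cc_rot (S : Finset Edg) (σ τ : St) :
    Pr (fun _ => (1/2:ℝ)) S (fun F => CC S F σ τ) ≤
      Pr (fun _ => (1/2:ℝ)) (rM S) (fun F => CC (rM S) F (rS σ) (rS τ)) := by
  rw [rot_pr]
  exact Pr_mono ok2 fun F _ h => cc_rot h

/-- **Two states on the same interface, lower bound.** -/
theorem low_pt {c : ℝ} (hc : 0 < c) (hL : LowA c (1/4))
    (hcl : ∀ σ : St, ∀ᵐ ω ∂μ, Closed (opn ω) σ) : ∃ c' : ℝ, 0 < c' ∧
    ∀ (σ τ : St) (R : ℕ), 112 ≤ R → max |σ.1.1 - τ.1.1| |σ.1.2 - τ.1.2| = R →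
      c' * (qr R * qr R) ≤ pl σ τ := by
  obtain ⟨c', hc', h⟩ := horiz hc hL
  refine ⟨c' / 729, by positivity, ?_⟩
  intro σ τ R hR hd
  have e1 : |σ.1.1 - τ.1.1| ≤ R := hd ▸ le_max_left _ _
  have e2 : |σ.1.2 - τ.1.2| ≤ R := hd ▸ le_max_right _ _
  have key : ∃ q : Q4, c' * (qr R * qr R) ≤ pl (σ.1, q) (τ.1, q) := by
    rcases max_choice |σ.1.1 - τ.1.1| |σ.1.2 - τ.1.2| with h3 | h3
    · rw [h3] at hd
      obtain ⟨S, hS⟩ := h σ.1 τ.1 R hR hd e2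
      exact ⟨Q4.ne, hS.trans (cc_law hcl _ _ _)⟩
    · rw [h3] at hd
      obtain ⟨S, hS⟩ := h (σ.1.2, -σ.1.1) (τ.1.2, -τ.1.1) R hR hd (by
        simp only
        rw [show -σ.1.1 - -τ.1.1 = -(σ.1.1 - τ.1.1) by ring, abs_neg]
        exact e1)
      have h4 := hS.trans (pr_cc_rot _ _ _)
      refine ⟨rQ Q4.ne, h4.trans ((cc_law hcl _ _ _).trans (le_of_eq ?_))⟩
      simp [rS, rV]
  obtain ⟨q, hq⟩ := key
  have h5 := corner_two hcl σ.1 τ.1 q σ.2 q τ.2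
  have h6 : c' * (qr R * qr R) ≤ 729 * pl σ τ := hq.trans h5
  linarith

end Q292.LDep
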