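import Pool.Agent.Q292.LDep.Sec2
import Pool.Agent.H984R3.Per.UpPi
import Pool.Agent.H984R3.Per.LowEV
import Pool.Agent.H985R3.TA.Main
import Pool.Agent.H985R3.TA.STA

/-!
Two independent interfaces: the exact order of the probability that they meet and separate.
-/

set_option autoImplicit false

namespace Q292.LDep

open H974 Finset H342P H984P H984H MeasureTheory Pool.Agent.Y993.LL Q292.TVY

theorem qq {t : ℝ} (ht : 0 < t) : qr t * qr t = t ^ (-(1/2) : ℝ) := by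
  unfold qr
  rw [← Real.rpow_add ht]
  norm_num

theorem qq_small {ε : ℝ} (hε : 0 < ε) : ∃ R0 : ℕ, ∀ R : ℕ, R0 ≤ R → qr R * qr R ≤ ε := by
  have h1 : Filter.Tendsto (fun R : ℕ => ((R : ℝ)) ^ (-(1/2) : ℝ)) Filter.atTop (nhds 0) :=
    (tendsto_rpow_neg_atTop (by norm_num : (0 : ℝ) < 1/2)).comp tendsto_natCast_atTop_atTop
  have h2 := (h1.eventually (gt_mem_nhds hε)).and (Filter.eventually_ge_atTop 1)
  obtain ⟨R0, h3⟩ := Filter.eventually_atTop.mp h2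
  refine ⟨R0, fun R hR => ?_⟩
  obtain ⟨h4, h5⟩ := h3 R hR
  have hR0 : (0 : ℝ) < R := by
    have : 0 < R := by omega
    exact_mod_cast this
  rw [qq hR0]
  exact h4.le

/-- **Lower bound.** -/
theorem lower {c C C2 : ℝ} (hc : 0 < c) (hL : LowA c (1/4)) (hC : 0 < C)
    (hU : TwoUp C (1/4)) (hC2 : 0 < C2) (hA : AnnUp C2) : ∃ (c' : ℝ) (R0 : ℕ), 0 < c' ∧
    ∀ (σ τ : St) (R : ℕ), R0 ≤ R → max |σ.1.1 - τ.1.1| |σ.1.2 - τ.1.2| = R →
      c' * ((qr R * qr R) * Real.log R) ≤ (μ.prod μ).real (DD σ τ) := by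
  have hcl : ∀ σ : St, ∀ᵐ ω ∂μ, Closed (opn ω) σ := closed_ae (by norm_num) hU
  obtain ⟨c1, hc1, h1⟩ := lower_K hc hL hC hU hC2 hA
  obtain ⟨Cp, hCp, hp⟩ := pair_up hC hU
  obtain ⟨R1, hR1⟩ := qq_small (ε := c1 / (2 * Cp ^ 2)) (by positivity)
  refine ⟨c1 / 16, max R1 150, by positivity, ?_⟩
  intro σ τ R hR hd
  have hR1' : R1 ≤ R := le_trans (le_max_left _ _) hR
  have hR2' : 150 ≤ R := le_trans (le_max_right _ _) hR
  have hR0 : (0 : ℝ) < R := by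
    have : 0 < R := by omega
    exact_mod_cast this
  have hdR : ds σ.1 τ.1 = R := by
    have := ds_max σ.1 τ.1
    rw [hd] at this
    exact_mod_cast this.symm
  have hf : Far σ.1 R τ.1 := by
    have := ds_far σ.1 τ.1
    rwa [hdR] at this
  have qR := qr_pos hR0
  set Q := qr R * qr R with hQ
  have hQ0 : 0 < Q := by positivity
  obtain ⟨n, hn⟩ : ∃ n : ℕ, n = Nat.log 2 (R / 136) := ⟨_, rfl⟩
  have hq : R / 136 ≠ 0 := by omega
  have hn1 : 2 ^ n ≤ R / 136 := by rw [hn]; exact Nat.pow_log_le_self 2 hq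
  have hn2 : R / 136 < 2 ^ (n + 1) := by
    rw [hn]; exact Nat.lt_pow_succ_log_self (by norm_num) _
  have h2 := h1 σ τ R (n + 1) hR2' hd (by
    intro k hk
    have h3 : 2 ^ k ≤ 2 ^ n := Nat.pow_le_pow_right (by norm_num) (by omega)
    omega)
  have hlog : Real.log R ≤ 8 * ((n : ℝ) + 1) := by
    have h3 : R ≤ 2 ^ (n + 1) * 136 := by omega
    have h4 : (R : ℝ) ≤ 2 ^ (n + 1) * 136 := by exact_mod_cast h3
    have h5 : Real.log R ≤ Real.log (2 ^ (n + 1) * 136) := Real.log_le_log hR0 h4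
    rw [Real.log_mul (by positivity) (by norm_num), Real.log_pow] at h5
    have h6 := Real.log_two_lt_d9
    have h7 : Real.log 136 ≤ 7 := by
      have : Real.log 136 ≤ Real.log (2 ^ 8) := Real.log_le_log (by norm_num) (by norm_num)
      rw [Real.log_pow] at this
      push_cast at this
      linarith
    push_cast at h5
    have h8 : (0 : ℝ) ≤ n := Nat.cast_nonneg _
    nlinarith
  -- the two interfaces with a common state
  have hpl : ∀ ρ ρ' : St, Far ρ.1 R ρ'.1 → pl ρ ρ' ≤ Cp * Q := by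
    intro ρ ρ' h
    rw [pl_conn hcl]
    exact hp ρ ρ' R (by omega) h
  have hae : ∀ᵐ p : Cf × Cf ∂(μ.prod μ), Closed (opn p.1) σ ∧ Closed (opn p.2) τ := by
    have a1 : ∀ᵐ p : Cf × Cf ∂(μ.prod μ), Closed (opn p.1) σ :=
      Measure.quasiMeasurePreserving_fst.ae (hcl σ)
    have a2 : ∀ᵐ p : Cf × Cf ∂(μ.prod μ), Closed (opn p.2) τ :=
      Measure.quasiMeasurePreserving_snd.ae (hcl τ)
    filter_upwards [a1, a2] with p h1 h2
    exact ⟨h1, h2⟩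
  have h3 : (μ.prod μ).real {p : Cf × Cf | ∃ x : St, x ∈ loop (opn p.1) σ ∧
      x ∈ loop (opn p.2) τ} ≤ (μ.prod μ).real (DD σ τ ∪
        ({ω | τ ∈ loop (opn ω) σ} ×ˢ {ω | σ ∈ loop (opn ω) τ})) := by
    unfold Measure.real
    refine ENNReal.toReal_mono (measure_ne_top _ _) (measure_mono_ae ?_)
    filter_upwards [hae] with p hp hx
    obtain ⟨x, hx1, hx2⟩ := hx
    rcases split_of_mem hp.1 hp.2 hx1 hx2 with h | h
    · exact Or.inl h
    · exact Or.inr h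
  have h4 : (μ.prod μ).real ({ω | τ ∈ loop (opn ω) σ} ×ˢ {ω | σ ∈ loop (opn ω) τ}) ≤
      (Cp * Q) * (Cp * Q) := by
    rw [measureReal_prod_prod]
    exact mul_le_mul (hpl σ τ hf) (hpl τ σ (far_symm hf)) measureReal_nonneg (by positivity)
  have h5 := h2.trans (h3.trans (measureReal_union_le _ _))
  have h6 : Q ≤ c1 / (2 * Cp ^ 2) := hR1 R hR1'
  have h7 : (Cp * Q) * (Cp * Q) ≤ c1 / 2 * Q := by
    have e : (Cp * Q) * (Cp * Q) = Cp ^ 2 * Q * Q := by ring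
    rw [e]
    apply mul_le_mul_of_nonneg_right _ hQ0.le
    rw [le_div_iff₀ (by positivity)] at h6
    linarith
  push_cast at h5
  have h8 : (0 : ℝ) ≤ n := Nat.cast_nonneg _
  have h9 : c1 / 16 * (Q * Real.log R) ≤ c1 / 16 * (Q * (8 * ((n : ℝ) + 1))) := by
    apply mul_le_mul_of_nonneg_left _ (by positivity)
    exact mul_le_mul_of_nonneg_left hlog hQ0.le
  have h10 : 0 ≤ c1 * (n * Q) := by positivity
  nlinarith

/-- The two-arm inputs. -/
theorem inputs : (∃ c : ℝ, 0 < c ∧ LowA c (1/4)) ∧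
    (∃ C : ℝ, 0 < C ∧ TwoUp C (1/4)) ∧ (∃ C : ℝ, 0 < C ∧ AnnUp C) := by
  refine ⟨?_, ?_, ?_⟩
  · obtain ⟨B, m0, κ, hκ, h⟩ := H985T.EV_lower
    obtain ⟨c, hc, h2⟩ := H984P.lowA_of_EV (B := B) (m0 := m0) (s := 1/4) hκ (by norm_num)
      (fun m hm => by
        obtain ⟨ρ, c, s, c', f0, h1, h2, h3⟩ := h m hm
        exact ⟨ρ, c, s, c', f0, h2, h1, h3⟩)
    exact ⟨c, hc, h2⟩
  · obtain ⟨C, hC, h⟩ := H985T.pi2_upper
    exact ⟨C, hC, H984P.twoUp_of_pi2 hC (by norm_num) h⟩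
  · obtain ⟨C, hC, h⟩ := H985T.st_A
    exact ⟨C, hC, fun r R hr hR c1 c2 S => h r R hr hR c1 c2 S⟩

theorem main :
    (∀ σ : St, ∀ᵐ ω ∂μ, Closed (opn ω) σ) ∧
    (∃ (c C : ℝ) (R0 : ℕ), 0 < c ∧ 0 < C ∧ ∀ (σ τ : St) (R : ℕ), R0 ≤ R →
      max |σ.1.1 - τ.1.1| |σ.1.2 - τ.1.2| = R →
      (c * (R : ℝ) ^ (-(1/2) : ℝ) ≤ pl σ τ ∧ pl σ τ ≤ C * (R : ℝ) ^ (-(1/2) : ℝ)) ∧
      c * ((R : ℝ) ^ (-(1/2) : ℝ) * Real.log R) ≤ (μ.prod μ).real (DD σ τ) ∧
      (μ.prod μ).real (DD σ τ) ≤ C * ((R : ℝ) ^ (-(1/2) : ℝ) * Real.log R)) := by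
  obtain ⟨⟨c, hc, hL⟩, ⟨C, hC, hU⟩, ⟨C2, hC2, hA⟩⟩ := inputs
  have hcl : ∀ σ : St, ∀ᵐ ω ∂μ, Closed (opn ω) σ := closed_ae (by norm_num) hU
  refine ⟨hcl, ?_⟩
  obtain ⟨c', R0, hc', hlo⟩ := lower hc hL hC hU hC2 hA
  obtain ⟨C', hC', hup⟩ := upper hC hU hC2 hA
  obtain ⟨c3, hc3, h3⟩ := low_pt hc hL hcl
  obtain ⟨C3, hC3, hp3⟩ := pair_up hC hU
  refine ⟨min c' c3, max C' C3, max R0 112, by positivity, by positivity, ?_⟩
  intro σ τ R hR hd
  have hR8 : 112 ≤ R := le_trans (le_max_right _ _) hR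
  have hR0 : (0 : ℝ) < R := by
    have : 0 < R := by omega
    exact_mod_cast this
  have hdR : ds σ.1 τ.1 = R := by
    have := ds_max σ.1 τ.1
    rw [hd] at this
    exact_mod_cast this.symm
  have hf : Far σ.1 R τ.1 := by
    have := ds_far σ.1 τ.1
    rwa [hdR] at this
  have qR := qr_pos hR0
  have hlog : 0 ≤ Real.log R := Real.log_nonneg (by
    have : 1 ≤ R := by omega
    exact_mod_cast this)
  have hX : 0 ≤ (qr R * qr R) * Real.log R := by positivity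
  have hY : 0 ≤ qr R * qr R := by positivity
  rw [← qq hR0]
  refine ⟨⟨?_, ?_⟩, ?_, ?_⟩
  · exact (mul_le_mul_of_nonneg_right (min_le_right _ _) hY).trans (h3 σ τ R hR8 hd)
  · rw [pl_conn hcl]
    exact (hp3 σ τ R (by omega) hf).trans (mul_le_mul_of_nonneg_right (le_max_right _ _) hY)
  · exact (mul_le_mul_of_nonneg_right (min_le_left _ _) hX).trans
      (hlo σ τ R (le_trans (le_max_left _ _) hR) hd)
  · exact (hup σ τ R (by omega) hf).trans (mul_le_mul_of_nonneg_right (le_max_left _ _) hX)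

end Q292.LDep
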