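import Pool.Agent.Y993.LL.Low

/-!
Two states with separated arms are on the same interface: crossings of rectangles.
-/

set_option autoImplicit false

namespace Q292.LDep

open H974 Finset H342P H984P MeasureTheory Pool.Agent.Y993.LL

/-- Open crossings and dual crossings at a constant price. -/
theorem net {a : ℕ} {S T1 U : Finset Edg} (hT1 : T1 ⊆ S) (hU : dE U ⊆ ↑S)
    (hTU : ∀ e ∈ T1, dl e ∉ U) {f g : Finset Edg → Prop}
    (hf : ∀ F, f F ↔ f (F ∩ T1)) (hfi : ∀ F G : Finset Edg, F ⊆ G → f F → f G)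
    (hg : ∀ F, g F ↔ g (F ∩ U)) (hgi : ∀ F G : Finset Edg, F ⊆ G → g F → g G)
    {V : Vtx → Prop} (hPR : ∀ v, V v → ∀ e ∈ PR v a, dl e ∉ U)
    (hDR : ∀ v, V v → ∀ e, dl e ∈ DR v a → e ∉ T1) {N : Finset Edg → Prop}
    (hN : ∀ F G : Finset Edg, F ⊆ S → G ⊆ S →
      (∀ v, V v → RA v a (↑F) → RA v a (↑G)) → N F → N G) :
    Pr (fun _ => (1/2:ℝ)) S N * (Pr (fun _ => (1/2:ℝ)) S f * Pr (fun _ => (1/2:ℝ)) (dmp S) g) ≤
      Pr (fun _ => (1/2:ℝ)) S (fun F => N F ∧ (f F ∧ g (dmp (S \ F)))) := by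
  classical
  set T2 : Finset Edg := S.filter (fun e => dl e ∈ U) with hT2
  have mT2 : ∀ e, e ∈ T2 ↔ dl e ∈ U := by
    intro e
    rw [hT2, Finset.mem_filter]
    exact ⟨fun h => h.2, fun h => ⟨hU h, h⟩⟩
  have hdisj : Disjoint T1 T2 := by
    rw [Finset.disjoint_left]
    intro e h1 h2
    exact hTU e h1 ((mT2 e).1 h2)
  have key := harris_signed (p := fun _ : Edg => (1/2:ℝ)) ok2 (S := S) (T₁ := T1) (T₂ := T2)
    hT1 (Finset.filter_subset _ _) hdisj (N := N) (f := f)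
    (g := fun F => g (dmp (S \ F)))
    (fun F _ => hf F) hfi
    (by
      intro F _
      show g (dmp (S \ F)) ↔ g (dmp (S \ (F ∩ T2)))
      rw [hg (dmp (S \ F)), hg (dmp (S \ (F ∩ T2)))]
      have : dmp (S \ F) ∩ U = dmp (S \ (F ∩ T2)) ∩ U := by
        ext e
        rw [Finset.mem_inter, Finset.mem_inter, mem_dmp, mem_dmp, Finset.mem_sdiff,
          Finset.mem_sdiff, Finset.mem_inter]
        constructor
        · rintro ⟨⟨h1, h2⟩, h3⟩
          exact ⟨⟨h1, fun h => h2 h.1⟩, h3⟩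
        · rintro ⟨⟨h1, h2⟩, h3⟩
          refine ⟨⟨h1, fun h => h2 ⟨h, (mT2 _).2 ?_⟩⟩, h3⟩
          rw [Equiv.apply_symm_apply]
          exact h3
      rw [this])
    (by
      intro F G hFG h
      refine hgi _ _ ?_ h
      intro e he
      rw [mem_dmp, Finset.mem_sdiff] at he ⊢
      exact ⟨he.1, fun h => he.2 (hFG h)⟩)
    (by
      intro F G hFS hGS hout k1 k2 hNF
      refine hN F G hFS hGS ?_ hNF
      intro v hv
      apply Tr760.RA_mono
      · intro e he heF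
        have hn2 : e ∉ T2 := fun h => hPR v hv e he ((mT2 e).1 h)
        by_cases hn1 : e ∈ T1
        · exact (Finset.mem_inter.1 (k1 (Finset.mem_inter.2 ⟨heF, hn1⟩))).1
        · have : e ∈ F \ (T1 ∪ T2) := by
            rw [Finset.mem_sdiff, Finset.mem_union]
            exact ⟨heF, fun h => h.elim hn1 hn2⟩
          rw [hout, Finset.mem_sdiff] at this
          exact this.1
      · intro e he heG
        have hn1 : e ∉ T1 := hDR v hv e he
        by_cases hn2 : e ∈ T2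
        · exact (Finset.mem_inter.1 (k2 (Finset.mem_inter.2 ⟨heG, hn2⟩))).1
        · have : e ∈ G \ (T1 ∪ T2) := by
            rw [Finset.mem_sdiff, Finset.mem_union]
            exact ⟨heG, fun h => h.elim hn1 hn2⟩
          rw [← hout, Finset.mem_sdiff] at this
          exact this.1)
  refine le_trans (le_of_eq ?_) key
  congr 2
  have e := H12S.pr_dual (q := 1/2) S g
  have e1 : (1:ℝ) - 1/2 = 1/2 := by norm_num
  rw [e1] at e
  unfold H12S.PQ at e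
  exact e.symm

theorem hh_ge {w h : ℤ} {b : ℕ} (hb : 1 ≤ b) (hw : 0 < w) (hw' : w ≤ 64 * b) (hh' : 4 * b ≤ h) :
    κ0 ≤ hh (1/2) w h := by
  have hb' : (1 : ℤ) ≤ b := by exact_mod_cast hb
  refine (H12S.WH.main (h := 4 * (b:ℤ)) (by omega)).trans ?_
  exact hh_mono (by norm_num) (by norm_num) (by omega) (by omega) (by omega)

theorem harris3 {S : Finset Edg} {A B C : Finset Edg → Prop} (hA : IncrE S A) (hB : IncrE S B)
    (hC : IncrE S C) (h1 : κ0 ≤ Pr (fun _ => (1/2:ℝ)) S A) (h2 : κ0 ≤ Pr (fun _ => (1/2:ℝ)) S B)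
    (h3 : κ0 ≤ Pr (fun _ => (1/2:ℝ)) S C) :
    κ0 * κ0 * κ0 ≤ Pr (fun _ => (1/2:ℝ)) S (fun F => (A F ∧ B F) ∧ C F) := by
  have k0 := κ0_pos
  have hAB : IncrE S (fun F => A F ∧ B F) := fun F G h h' hF => ⟨hA F G h h' hF.1, hB F G h h' hF.2⟩
  have h4 : κ0 * κ0 ≤ Pr (fun _ => (1/2:ℝ)) S (fun F => A F ∧ B F) :=
    (mul_le_mul h1 h2 k0.le (k0.le.trans h1)).trans (Pr_harris ok2 hA hB)
  exact (mul_le_mul h4 h3 k0.le ((by positivity : (0:ℝ) ≤ κ0 * κ0).trans h4)).trans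
    (Pr_harris ok2 hAB hC)

/-- Positions of the lower point `A`, the upper point `B` and of the sides of the strips. -/
structure Pos (A B : Vtx) (X1 X2 : ℤ) (b : ℕ) : Prop where
  b1 : 1 ≤ b
  y1 : A.2 ≤ B.2
  y2 : B.2 ≤ A.2 + 60 * b
  sep : A.1 + 28 * b ≤ B.1 ∨ B.1 + 28 * b ≤ A.1
  xa : X1 ≤ A.1 - 13 * b
  xb : X1 ≤ B.1 - 13 * b
  xc : A.1 + 14 * b ≤ X2
  xd : B.1 + 14 * b ≤ X2
  wid : X2 - X1 ≤ 64 * b

/-- the region of the open crossings -/
noncomputable def T1 (A B : Vtx) (X1 X2 : ℤ) (b : ℕ) : Finset Edg :=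
  (LRE X1 X2 (A.2 - 8 * b) (A.2 - 4 * b) ∪ TBE (B.1 - 2 * b) (B.1 + 2 * b) (A.2 - 8 * b)
    (B.2 - 4 * b)) ∪ LRE (B.1 - 13 * b) (B.1 + 14 * b) (B.2 - 8 * b) (B.2 - 4 * b)

/-- the open crossings -/
def fe (A B : Vtx) (X1 X2 : ℤ) (b : ℕ) (F : Finset Edg) : Prop :=
  (LRc X1 X2 (A.2 - 8 * b) (A.2 - 4 * b) F ∧ TBc (B.1 - 2 * b) (B.1 + 2 * b) (A.2 - 8 * b)
    (B.2 - 4 * b) F) ∧ LRc (B.1 - 13 * b) (B.1 + 14 * b) (B.2 - 8 * b) (B.2 - 4 * b) F

/-- the region of the dual crossings, in the lattice of faces -/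
noncomputable def T2 (A B : Vtx) (X1 X2 : ℤ) (b : ℕ) : Finset Edg :=
  (LRE X1 X2 (B.2 + 4 * b) (B.2 + 8 * b) ∪ TBE (A.1 - 2 * b) (A.1 + 2 * b) (A.2 + 4 * b)
    (B.2 + 8 * b)) ∪ LRE (A.1 - 13 * b) (A.1 + 14 * b) (A.2 + 4 * b) (A.2 + 8 * b)

/-- the dual crossings -/
def ge (A B : Vtx) (X1 X2 : ℤ) (b : ℕ) (F : Finset Edg) : Prop :=
  (LRc X1 X2 (B.2 + 4 * b) (B.2 + 8 * b) F ∧ TBc (A.1 - 2 * b) (A.1 + 2 * b) (A.2 + 4 * b)
    (B.2 + 8 * b) F) ∧ LRc (A.1 - 13 * b) (A.1 + 14 * b) (A.2 + 4 * b) (A.2 + 8 * b) F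

/-- all the edges -/
noncomputable def SS (A B : Vtx) (X1 X2 : ℤ) (b : ℕ) : Finset Edg :=
  RE (X1 - 2 * b) (X2 + 2 * b) (A.2 - 15 * b) (B.2 + 15 * b)

variable {A B : Vtx} {X1 X2 : ℤ} {b : ℕ}

theorem T1_sub (h : Pos A B X1 X2 b) : T1 A B X1 X2 b ⊆ SS A B X1 X2 b := by
  obtain ⟨b1, y1, y2, sep, xa, xb, xc, xd, wid⟩ := h
  rintro ⟨x, y, _ | _⟩ he
  · simp only [T1, SS, Finset.mem_union, mem_RE_false, mem_LRE_false, mem_TBE_false] at he ⊢
    omega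
  · simp only [T1, SS, Finset.mem_union, mem_RE_true, mem_LRE_true, mem_TBE_true] at he ⊢
    omega

theorem T2_sub (h : Pos A B X1 X2 b) : dE (T2 A B X1 X2 b) ⊆ ↑(SS A B X1 X2 b) := by
  obtain ⟨b1, y1, y2, sep, xa, xb, xc, xd, wid⟩ := h
  rintro ⟨x, y, _ | _⟩ he
  · simp only [dE, T2, SS, Set.mem_ofPred_eq, dl_f, Finset.mem_union, mem_coe, mem_RE_false,
      mem_LRE_true, mem_TBE_true] at he ⊢
    omega
  · simp only [dE, T2, SS, Set.mem_ofPred_eq, dl_t, Finset.mem_union, mem_coe, mem_RE_true,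
      mem_LRE_false, mem_TBE_false] at he ⊢
    omega

theorem T12 (h : Pos A B X1 X2 b) : ∀ e ∈ T1 A B X1 X2 b, dl e ∉ T2 A B X1 X2 b := by
  obtain ⟨b1, y1, y2, sep, xa, xb, xc, xd, wid⟩ := h
  rintro ⟨x, y, _ | _⟩ he he'
  · simp only [T1, T2, dl_f, Finset.mem_union, mem_LRE_true, mem_TBE_true,
      mem_LRE_false, mem_TBE_false] at he he'
    omega
  · simp only [T1, T2, dl_t, Finset.mem_union, mem_LRE_true, mem_TBE_true,
      mem_LRE_false, mem_TBE_false] at he he'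
    omega

theorem PR_T2 (h : Pos A B X1 X2 b) : ∀ v, (v = A ∨ v = B) → ∀ e ∈ PR v b,
    dl e ∉ T2 A B X1 X2 b := by
  obtain ⟨b1, y1, y2, sep, xa, xb, xc, xd, wid⟩ := h
  rintro v (rfl | rfl) ⟨x, y, _ | _⟩ he he'
  · simp only [PR, T2, dl_f, Finset.mem_union, mem_LRE_true, mem_TBE_true,
      mem_RE_false] at he he'
    omega
  · simp only [PR, T2, dl_t, Finset.mem_union, mem_RE_true,
      mem_LRE_false, mem_TBE_false] at he he'
    omega
  · simp only [PR, T2, dl_f, Finset.mem_union, mem_LRE_true, mem_TBE_true,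
      mem_RE_false] at he he'
    omega
  · simp only [PR, T2, dl_t, Finset.mem_union, mem_RE_true,
      mem_LRE_false, mem_TBE_false] at he he'
    omega

theorem DR_T1 (h : Pos A B X1 X2 b) : ∀ v, (v = A ∨ v = B) → ∀ e, dl e ∈ DR v b →
    e ∉ T1 A B X1 X2 b := by
  obtain ⟨b1, y1, y2, sep, xa, xb, xc, xd, wid⟩ := h
  rintro v (rfl | rfl) ⟨x, y, _ | _⟩ he he'
  · simp only [DR, T1, dl_f, Finset.mem_union, mem_LRE_false, mem_TBE_false,
      mem_RE_true] at he he'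
    omega
  · simp only [DR, T1, dl_t, Finset.mem_union, mem_LRE_true, mem_TBE_true,
      mem_RE_false] at he he'
    omega
  · simp only [DR, T1, dl_f, Finset.mem_union, mem_LRE_false, mem_TBE_false,
      mem_RE_true] at he he'
    omega
  · simp only [DR, T1, dl_t, Finset.mem_union, mem_LRE_true, mem_TBE_true,
      mem_RE_false] at he he'
    omega

end Q292.LDep
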