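import Mathlib

/-!
The second moment method with weights, and a double geometric sum.
-/

set_option autoImplicit false

namespace Q292.LDep

open MeasureTheory Finset

/-- The second moment method. -/
theorem pz {Ω ι : Type*} [MeasurableSpace Ω] (P : Measure Ω) [IsProbabilityMeasure P]
    (I : Finset ι) (w : ι → ℝ) (A : ι → Set Ω) (hA : ∀ i ∈ I, MeasurableSet (A i)) :
    (∑ i ∈ I, w i * P.real (A i)) ^ 2 ≤
      P.real (⋃ i ∈ I, A i) * ∑ i ∈ I, ∑ j ∈ I, w i * w j * P.real (A i ∩ A j) := by
  classical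
  set U : Set Ω := ⋃ i ∈ I, A i with hU
  have hUm : MeasurableSet U := Finset.measurableSet_biUnion I hA
  set g : ι → Ω → ℝ := fun i => (A i).indicator 1 with hg
  have hgi : ∀ i ∈ I, Integrable (g i) P := fun i hi =>
    (integrable_const (1 : ℝ)).indicator (hA i hi)
  have hgint : ∀ i ∈ I, ∫ ω, g i ω ∂P = P.real (A i) := fun i hi =>
    integral_indicator_one (hA i hi)
  set S1 := ∑ i ∈ I, w i * P.real (A i) with hS1
  set S2 := ∑ i ∈ I, ∑ j ∈ I, w i * w j * P.real (A i ∩ A j) with hS2
  set u := P.real U with hu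
  have key : ∀ t : ℝ, 0 ≤ u * (t * t) + (-(2 * S1)) * t + S2 := by
    intro t
    have h1 : ∀ ω, (∑ i ∈ I, w i * g i ω - t * U.indicator 1 ω) ^ 2 =
        (∑ i ∈ I, ∑ j ∈ I, w i * w j * (A i ∩ A j).indicator 1 ω) -
          (2 * t) * (∑ i ∈ I, w i * g i ω) + (t * t) * U.indicator 1 ω := by
      intro ω
      have e1 : (∑ i ∈ I, w i * g i ω) * (∑ i ∈ I, w i * g i ω) =
          ∑ i ∈ I, ∑ j ∈ I, w i * w j * (A i ∩ A j).indicator (1 : Ω → ℝ) ω := by
        rw [Finset.sum_mul_sum]
        refine Finset.sum_congr rfl fun i _ => Finset.sum_congr rfl fun j _ => ?_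
        rw [hg]
        simp only [Set.indicator_apply, Set.mem_inter_iff, Pi.one_apply]
        by_cases h1 : ω ∈ A i <;> by_cases h2 : ω ∈ A j <;> simp [h1, h2]
      have e2 : (∑ i ∈ I, w i * g i ω) * U.indicator (1 : Ω → ℝ) ω = ∑ i ∈ I, w i * g i ω := by
        by_cases hω : ω ∈ U
        · rw [Set.indicator_of_mem hω, Pi.one_apply, mul_one]
        · have : ∑ i ∈ I, w i * g i ω = 0 := by
            apply Finset.sum_eq_zero
            intro i hi
            have : ω ∉ A i := fun h => hω (Set.mem_biUnion (by exact_mod_cast hi) h)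
            rw [hg]
            simp only
            rw [Set.indicator_of_notMem this, mul_zero]
          rw [this, zero_mul]
      have e3 : U.indicator (1 : Ω → ℝ) ω * U.indicator (1 : Ω → ℝ) ω =
          U.indicator (1 : Ω → ℝ) ω := by
        by_cases hω : ω ∈ U
        · rw [Set.indicator_of_mem hω]; simp
        · rw [Set.indicator_of_notMem hω]; simp
      rw [← e1]
      set N := ∑ i ∈ I, w i * g i ω with hN
      set V := U.indicator (1 : Ω → ℝ) ω with hV
      calc (N - t * V) ^ 2 = N * N - (2 * t) * (N * V) + (t * t) * (V * V) := by ring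
        _ = _ := by rw [e2, e3]
    have h2 : 0 ≤ ∫ ω, (∑ i ∈ I, w i * g i ω - t * U.indicator 1 ω) ^ 2 ∂P :=
      integral_nonneg fun ω => sq_nonneg _
    simp_rw [h1] at h2
    have i1 : Integrable (fun ω => ∑ i ∈ I, ∑ j ∈ I,
        w i * w j * (A i ∩ A j).indicator (1 : Ω → ℝ) ω) P := by
      refine integrable_finsetSum _ fun i hi => integrable_finsetSum _ fun j hj => ?_
      exact ((integrable_const (1 : ℝ)).indicator ((hA i hi).inter (hA j hj))).const_mul _
    have i2 : Integrable (fun ω => ∑ i ∈ I, w i * g i ω) P :=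
      integrable_finsetSum _ fun i hi => (hgi i hi).const_mul _
    have i3 : Integrable (fun ω => U.indicator (1 : Ω → ℝ) ω) P :=
      (integrable_const (1 : ℝ)).indicator hUm
    have i12 : Integrable (fun ω => (∑ i ∈ I, ∑ j ∈ I,
        w i * w j * (A i ∩ A j).indicator (1 : Ω → ℝ) ω) -
          (2 * t) * (∑ i ∈ I, w i * g i ω)) P := i1.sub (i2.const_mul (2 * t))
    have i4 : Integrable (fun ω => (t * t) * U.indicator (1 : Ω → ℝ) ω) P := i3.const_mul _
    rw [integral_add i12 i4, integral_sub i1 (i2.const_mul (2 * t)), integral_const_mul,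
      integral_const_mul] at h2
    have v1 : ∫ ω, ∑ i ∈ I, ∑ j ∈ I, w i * w j * (A i ∩ A j).indicator (1 : Ω → ℝ) ω ∂P = S2 := by
      rw [integral_finsetSum]
      · refine Finset.sum_congr rfl fun i hi => ?_
        rw [integral_finsetSum]
        · refine Finset.sum_congr rfl fun j hj => ?_
          rw [integral_const_mul, integral_indicator_one ((hA i hi).inter (hA j hj))]
        · intro j hj
          exact ((integrable_const (1 : ℝ)).indicator ((hA i hi).inter (hA j hj))).const_mul _
      · intro i hi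
        refine integrable_finsetSum _ fun j hj => ?_
        exact ((integrable_const (1 : ℝ)).indicator ((hA i hi).inter (hA j hj))).const_mul _
    have v2 : ∫ ω, ∑ i ∈ I, w i * g i ω ∂P = S1 := by
      rw [integral_finsetSum]
      · refine Finset.sum_congr rfl fun i hi => ?_
        rw [integral_const_mul, hgint i hi]
      · intro i hi
        exact (hgi i hi).const_mul _
    have v3 : ∫ ω, U.indicator (1 : Ω → ℝ) ω ∂P = u := integral_indicator_one hUm
    rw [v1, v2, v3] at h2
    linarith
  have h := discrim_le_zero key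
  unfold discrim at h
  nlinarith

/-- a double geometric sum -/
theorem geo {r B : ℝ} (h0 : 0 ≤ r) (h1 : r < 1) (hB : 0 ≤ B) (T : ℕ → ℕ → ℝ)
    (hT : ∀ k l, k ≤ l → T k l ≤ B * r ^ (l - k)) (hT' : ∀ k l, k ≤ l → T l k ≤ B * r ^ (l - k))
    (K : ℕ) : ∑ k ∈ range K, ∑ l ∈ range K, T k l ≤ K * (B * (3 / (1 - r))) := by
  have h1' : 0 < 1 - r := by linarith
  have hg : ∀ n : ℕ, ∑ j ∈ range n, r ^ j ≤ 1 / (1 - r) := by
    intro n
    rw [geom_sum_eq (by linarith : r ≠ 1), ← neg_div_neg_eq, neg_sub, neg_sub]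
    apply div_le_div_of_nonneg_right _ h1'.le
    have : 0 ≤ r ^ n := pow_nonneg h0 n
    linarith
  have hs : ∀ n : ℕ, ∑ k ∈ range n, r ^ (n - k) ≤ 1 / (1 - r) := by
    intro n
    have h2 : ∑ k ∈ range n, r ^ (n - k) = ∑ j ∈ range n, r ^ (j + 1) := by
      rw [← Finset.sum_range_reflect]
      refine Finset.sum_congr rfl fun j hj => ?_
      rw [Finset.mem_range] at hj
      congr 1
      omega
    rw [h2]
    refine le_trans (Finset.sum_le_sum fun j _ => ?_) (hg n)
    exact pow_le_pow_of_le_one h0 h1.le (by omega)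
  induction K with
  | zero => simp
  | succ K ih =>
    rw [Finset.sum_range_succ]
    have e1 : ∑ k ∈ range K, ∑ l ∈ range (K + 1), T k l =
        ∑ k ∈ range K, ∑ l ∈ range K, T k l + ∑ k ∈ range K, T k K := by
      rw [← Finset.sum_add_distrib]
      exact Finset.sum_congr rfl fun k _ => Finset.sum_range_succ _ _
    rw [e1, Finset.sum_range_succ]
    have a1 : ∑ k ∈ range K, T k K ≤ B * (1 / (1 - r)) := by
      calc ∑ k ∈ range K, T k K ≤ ∑ k ∈ range K, B * r ^ (K - k) :=
            Finset.sum_le_sum fun k hk => hT k K (by rw [Finset.mem_range] at hk; omega)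
        _ = B * ∑ k ∈ range K, r ^ (K - k) := by rw [Finset.mul_sum]
        _ ≤ B * (1 / (1 - r)) := mul_le_mul_of_nonneg_left (hs K) hB
    have a2 : ∑ l ∈ range K, T K l ≤ B * (1 / (1 - r)) := by
      calc ∑ l ∈ range K, T K l ≤ ∑ l ∈ range K, B * r ^ (K - l) :=
            Finset.sum_le_sum fun k hk => hT' k K (by rw [Finset.mem_range] at hk; omega)
        _ = B * ∑ k ∈ range K, r ^ (K - k) := by rw [Finset.mul_sum]
        _ ≤ B * (1 / (1 - r)) := mul_le_mul_of_nonneg_left (hs K) hB
    have a3 : T K K ≤ B * (1 / (1 - r)) := by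
      have := hT K K le_rfl
      rw [Nat.sub_self, pow_zero, mul_one] at this
      refine this.trans ?_
      have h3 : 1 ≤ 1 / (1 - r) := by
        rw [le_div_iff₀ h1']
        linarith
      nlinarith
    push_cast
    have e2 : (((K : ℝ) + 1)) * (B * (3 / (1 - r))) =
        K * (B * (3 / (1 - r))) + (B * (1 / (1 - r)) + B * (1 / (1 - r)) + B * (1 / (1 - r))) := by
      ring
    rw [e2]
    linarith

end Q292.LDep
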