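import Pool.Agent.Q292.LDep.At
import Pool.Agent.Q292.LDep.Tri
import Pool.Agent.Q292.CDep.Upper

/-!
Two independent interfaces meet: upper bound.
-/

set_option autoImplicit false

namespace Q292.LDep

open H974 Finset H342P H984P H984H MeasureTheory Pool.Agent.Y993.LL Q292.TVY

theorem law_B {C C2 : ℝ} (hU : TwoUp C (1/4)) (hA : AnnUp C2) {σ τ : St} {R M m : ℕ}
    (hf : Far σ.1 R τ.1) (hmM : m + 2 ≤ M) (hMR : 2 * M < R) :
    μ.real {ω | ∃ x : St, x.1 ∈ ctr σ.1 m ∧ Conn (opn ω) x τ} ≤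
      (C2 * (((m + 1 : ℕ) : ℝ) / M) ^ (1/4 : ℝ)) * (C * qr M) := by
  have hM0 : 0 < M := by omega
  have hM0' : (0 : ℤ) < M := by exact_mod_cast hM0
  set X := AX σ.1 m M with hX
  have dM : Disjoint (bx σ.1 M) (bx τ.1 M) := bx_disj hf (by omega)
  have XM : X ⊆ bx σ.1 M := Finset.sdiff_subset
  set S : Finset Edg := bx σ.1 M ∪ bx τ.1 M with hS
  have sX : X ⊆ S := XM.trans Finset.subset_union_left
  have s3 : bx τ.1 M ⊆ S := Finset.subset_union_right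
  obtain ⟨k3, -⟩ := ind2 sX s3 (Finset.disjoint_of_subset_left XM dM) (an_loc σ.1 m M)
    (two_loc' τ.1 (face τ) hM0) (pr_an hA (by omega) sX) (pr_two' hU hM0 s3)
  refine (law_le (S := S) (A := fun F => An σ.1 m M (↑F) ∧ Two τ.1 (face τ) M (↑F))
    ?_).trans k3
  rintro ω ⟨x, hx, hc⟩
  have hx' := hx
  rw [mem_ctr'] at hx'
  refine ⟨(FF_an sX ω).1 (an_of_conn hc hx ?_ hmM), (two_FF hM0' s3 ω).1 ?_⟩
  · unfold Far at hf ⊢; omega
  · refine two_of_far (D := (M : ℤ) + 1) hM0 hc.symm ?_ le_rfl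
    unfold Far at hf ⊢
    omega

/-- two independent interfaces meet not far from the first state of the first one -/
theorem side {C C2 : ℝ} (hC : 0 < C) (hU : TwoUp C (1/4)) (hC2 : 0 < C2) (hA : AnnUp C2)
    {σ τ : St} {R M J : ℕ} (hf : Far σ.1 R τ.1) (hJ : 2 ^ J + 2 ≤ M) (hMR : 2 * M < R)
    (hRM : R ≤ 4 * M) :
    (μ.prod μ).real {p : Cf × Cf | ∃ x, x ∈ loop (opn p.1) σ ∧ x ∈ loop (opn p.2) τ ∧
      x.1 ∈ ctr σ.1 (2 ^ J)} ≤
      ((J : ℝ) + 1) * ((2 * C + 1) * C2 * C * 32 * (qr R * qr R)) := by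
  have hM0 : 0 < M := by omega
  have hMR0 : (0 : ℝ) < M := by exact_mod_cast hM0
  have hRR0 : (0 : ℝ) < R := by
    have : 0 < R := by omega
    exact_mod_cast this
  have qM := qr_pos hMR0
  have qR := qr_pos hRR0
  have hqM : qr M ≤ 4 * qr R := qr_le hMR0 hRR0 (by norm_num) (by exact_mod_cast hRM)
  set A : ℕ → Set Cf := fun j => if j = 0 then Set.univ else
    {ω | Two σ.1 (face σ) ((2 ^ (j - 1) : ℕ) : ℤ) (opn ω)} with hAd
  set B : ℕ → Set Cf := fun j => {ω | ∃ x : St, x.1 ∈ ctr σ.1 (2 ^ j) ∧ Conn (opn ω) x τ}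
    with hBd
  have hcov : {p : Cf × Cf | ∃ x, x ∈ loop (opn p.1) σ ∧ x ∈ loop (opn p.2) τ ∧
      x.1 ∈ ctr σ.1 (2 ^ J)} ⊆ ⋃ j ∈ Finset.range (J + 1), A j ×ˢ B j := by
    rintro ⟨ω, ω'⟩ ⟨x, hx1, hx2, hx3⟩
    have hex : ∃ j, x.1 ∈ ctr σ.1 (2 ^ j) := ⟨J, hx3⟩
    classical
    set j := Nat.find hex with hj
    have hj1 : x.1 ∈ ctr σ.1 (2 ^ j) := Nat.find_spec hex
    have hj2 : j ≤ J := Nat.find_min' hex hx3
    rw [Set.mem_iUnion₂]
    refine ⟨j, Finset.mem_range.mpr (by omega), ?_, ?_⟩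
    · show ω ∈ A j
      rw [hAd]
      simp only
      split_ifs with h0
      · exact Set.mem_univ _
      · have h1 : x.1 ∉ ctr σ.1 (2 ^ (j - 1)) := Nat.find_min hex (by omega)
        exact two_of_conn (by positivity) (conn_of_mem hx1) (far_of_not_ctr h1)
    · exact ⟨x, hj1, (conn_of_mem hx2).symm⟩
  have hone : ∀ j ∈ Finset.range (J + 1), (μ.prod μ).real (A j ×ˢ B j) ≤
      (2 * C + 1) * C2 * C * 32 * (qr R * qr R) := by
    intro j hj
    have hjJ : j ≤ J := by have := Finset.mem_range.mp hj; omega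
    have h2J : 2 ^ j ≤ 2 ^ J := Nat.pow_le_pow_right (by norm_num) hjJ
    have h2j : (0 : ℝ) < 2 ^ j := by positivity
    have h1j : (1 : ℝ) ≤ 2 ^ j := one_le_pow₀ (by norm_num)
    rw [measureReal_prod_prod]
    have a1 : μ.real (A j) ≤ (2 * C + 1) * qr (2 ^ j) := by
      rw [hAd]
      simp only
      split_ifs with h0
      · rw [h0, pow_zero, qr_one, mul_one]
        have : μ.real (Set.univ : Set Cf) = 1 := by simp
        rw [this]
        linarith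
      · have hpos : (0 : ℤ) < ((2 ^ (j - 1) : ℕ) : ℤ) := by positivity
        have h1 := law_two hU (u := σ.1) (f := face σ) (k := ((2 ^ (j - 1) : ℕ) : ℤ)) hpos
          (inc_face σ)
        have hp : (0 : ℝ) < 2 ^ (j - 1) := by positivity
        have e1 : (2 : ℝ) ^ j = 2 * 2 ^ (j - 1) := by
          rw [← pow_succ']
          congr 1
          omega
        have h2 : qr (2 ^ (j - 1)) ≤ 2 * qr (2 ^ j) := qr_le hp h2j (by norm_num) (by rw [e1])
        have h3 : C * (((2 ^ (j - 1) : ℕ) : ℤ) : ℝ) ^ (-(1/4) : ℝ) = C * qr (2 ^ (j - 1)) := by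
          unfold qr
          push_cast
          rfl
        have hq := qr_pos h2j
        refine h1.trans (h3.le.trans ?_)
        nlinarith
    have b1 : μ.real (B j) ≤ (C2 * (((2 ^ j + 1 : ℕ) : ℝ) / M) ^ (1/4 : ℝ)) * (C * qr M) :=
      law_B hU hA hf (by omega) hMR
    have hx : (0 : ℝ) < 2 * 2 ^ j := by positivity
    have hfac := an_fac (k := 2 ^ j) (R := M) (x := 2 * 2 ^ j) (by omega) hx (by
      push_cast
      linarith)
    set Y := (((2 ^ j + 1 : ℕ) : ℝ) / M) ^ (1/4 : ℝ) with hY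
    have hY0 : 0 ≤ Y := by positivity
    have q5 : qr (2 ^ j) ≤ 2 * qr (2 * 2 ^ j) := qr_le h2j hx (by norm_num) le_rfl
    have q5' := qr_pos hx
    have q6' := qr_pos h2j
    have h1 : Y * qr (2 ^ j) ≤ 2 * qr M := by
      calc Y * qr (2 ^ j) ≤ Y * (2 * qr (2 * 2 ^ j)) := mul_le_mul_of_nonneg_left q5 hY0
        _ = 2 * (Y * qr (2 * 2 ^ j)) := by ring
        _ ≤ 2 * qr M := by linarith
    calc μ.real (A j) * μ.real (B j)
        ≤ ((2 * C + 1) * qr (2 ^ j)) * ((C2 * Y) * (C * qr M)) :=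
          mul_le_mul a1 b1 measureReal_nonneg (by positivity)
      _ = (2 * C + 1) * C2 * C * ((Y * qr (2 ^ j)) * qr M) := by ring
      _ ≤ (2 * C + 1) * C2 * C * ((2 * qr M) * qr M) := by
          apply mul_le_mul_of_nonneg_left _ (by positivity)
          exact mul_le_mul_of_nonneg_right h1 qM.le
      _ ≤ (2 * C + 1) * C2 * C * ((2 * (4 * qr R)) * (4 * qr R)) := by
          apply mul_le_mul_of_nonneg_left _ (by positivity)
          apply mul_le_mul _ hqM qM.le (by positivity)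
          linarith
      _ = (2 * C + 1) * C2 * C * 32 * (qr R * qr R) := by ring
  calc (μ.prod μ).real {p : Cf × Cf | ∃ x, x ∈ loop (opn p.1) σ ∧ x ∈ loop (opn p.2) τ ∧
      x.1 ∈ ctr σ.1 (2 ^ J)}
      ≤ (μ.prod μ).real (⋃ j ∈ Finset.range (J + 1), A j ×ˢ B j) :=
        measureReal_mono hcov (measure_ne_top _ _)
    _ ≤ ∑ j ∈ Finset.range (J + 1), (μ.prod μ).real (A j ×ˢ B j) :=
        measureReal_biUnion_finset_le _ _
    _ ≤ ∑ _j ∈ Finset.range (J + 1), (2 * C + 1) * C2 * C * 32 * (qr R * qr R) :=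
        Finset.sum_le_sum hone
    _ = _ := by
        rw [Finset.sum_const, Finset.card_range, nsmul_eq_mul]
        push_cast
        ring

/-- **Upper bound.** -/
theorem upper {C C2 : ℝ} (hC : 0 < C) (hU : TwoUp C (1/4)) (hC2 : 0 < C2) (hA : AnnUp C2) :
    ∃ C' : ℝ, 0 < C' ∧ ∀ (σ τ : St) (R : ℕ), 8 ≤ R → Far σ.1 R τ.1 →
      (μ.prod μ).real (DD σ τ) ≤ C' * ((qr R * qr R) * Real.log R) := by
  refine ⟨(2 * C + 1) * C2 * C * 32 * 6 + C ^ 2 * 256, by positivity, ?_⟩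
  intro σ τ R hR hf
  obtain ⟨M, hM⟩ : ∃ M : ℕ, M = (R - 1) / 2 := ⟨_, rfl⟩
  obtain ⟨J, hJ⟩ : ∃ J : ℕ, J = Nat.log 2 (R / 8) := ⟨_, rfl⟩
  have hq : R / 8 ≠ 0 := by omega
  have hJ1 : 2 ^ J ≤ R / 8 := by rw [hJ]; exact Nat.pow_log_le_self 2 hq
  have hJ2 : R / 8 < 2 ^ (J + 1) := by
    rw [hJ]; exact Nat.lt_pow_succ_log_self (by norm_num) _
  rw [pow_succ] at hJ2
  have hRR0 : (0 : ℝ) < R := by
    have : 0 < R := by omega
    exact_mod_cast this
  have qR := qr_pos hRR0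
  have n1 := side hC hU hC2 hA (σ := σ) (τ := τ) (J := J) (M := M) hf (by omega) (by omega)
    (by omega)
  have n2 := side hC hU hC2 hA (σ := τ) (τ := σ) (J := J) (M := M) (far_symm hf) (by omega)
    (by omega) (by omega)
  have e0 := Q292.CDep.swap_real {p : Cf × Cf | ∃ x, x ∈ loop (opn p.1) τ ∧
    x ∈ loop (opn p.2) σ ∧ x.1 ∈ ctr τ.1 (2 ^ J)}
  have n2' : (μ.prod μ).real {p : Cf × Cf | (p.2, p.1) ∈ {p : Cf × Cf | ∃ x,
      x ∈ loop (opn p.1) τ ∧ x ∈ loop (opn p.2) σ ∧ x.1 ∈ ctr τ.1 (2 ^ J)}} ≤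
      ((J : ℝ) + 1) * ((2 * C + 1) * C2 * C * 32 * (qr R * qr R)) := e0.le.trans n2
  have h2J : (0 : ℝ) < 2 ^ J := by positivity
  have hRJ : R ≤ 16 * 2 ^ J := by omega
  have hqJ : qr (2 ^ J) ≤ 16 * qr R := qr_le h2J hRR0 (by norm_num) (by exact_mod_cast hRJ)
  have qJ := qr_pos h2J
  have ltwo : ∀ ρ : St, μ.real {ω | Two ρ.1 (face ρ) ((2 ^ J : ℕ) : ℤ) (opn ω)} ≤
      C * (16 * qr R) := by
    intro ρ
    have hpos : (0 : ℤ) < ((2 ^ J : ℕ) : ℤ) := by positivity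
    have h1 := law_two hU (u := ρ.1) (f := face ρ) (k := ((2 ^ J : ℕ) : ℤ)) hpos (inc_face ρ)
    have h3 : C * (((2 ^ J : ℕ) : ℤ) : ℝ) ^ (-(1/4) : ℝ) = C * qr (2 ^ J) := by
      unfold qr
      push_cast
      rfl
    refine h1.trans (h3.le.trans ?_)
    exact mul_le_mul_of_nonneg_left hqJ hC.le
  have n3 : (μ.prod μ).real ({ω | Two σ.1 (face σ) ((2 ^ J : ℕ) : ℤ) (opn ω)} ×ˢ
      {ω | Two τ.1 (face τ) ((2 ^ J : ℕ) : ℤ) (opn ω)}) ≤ C ^ 2 * 256 * (qr R * qr R) := by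
    rw [measureReal_prod_prod]
    refine (mul_le_mul (ltwo σ) (ltwo τ) measureReal_nonneg (by positivity)).trans (le_of_eq ?_)
    ring
  have hcov : DD σ τ ⊆
      ({p : Cf × Cf | ∃ x, x ∈ loop (opn p.1) σ ∧ x ∈ loop (opn p.2) τ ∧
        x.1 ∈ ctr σ.1 (2 ^ J)} ∪
      {p : Cf × Cf | (p.2, p.1) ∈ {p : Cf × Cf | ∃ x, x ∈ loop (opn p.1) τ ∧
        x ∈ loop (opn p.2) σ ∧ x.1 ∈ ctr τ.1 (2 ^ J)}}) ∪
      ({ω | Two σ.1 (face σ) ((2 ^ J : ℕ) : ℤ) (opn ω)} ×ˢ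
        {ω | Two τ.1 (face τ) ((2 ^ J : ℕ) : ℤ) (opn ω)}) := by
    intro p hp
    obtain ⟨x, hx1, hx2⟩ := mem_of_split hp
    have hpos : (0 : ℤ) < ((2 ^ J : ℕ) : ℤ) := by positivity
    by_cases c1 : x.1 ∈ ctr σ.1 (2 ^ J)
    · exact Or.inl (Or.inl ⟨x, hx1, hx2, c1⟩)
    · by_cases c2 : x.1 ∈ ctr τ.1 (2 ^ J)
      · exact Or.inl (Or.inr ⟨x, hx2, hx1, c2⟩)
      · right
        exact ⟨two_of_conn hpos (conn_of_mem hx1) (far_of_not_ctr c1),
          two_of_conn hpos (conn_of_mem hx2) (far_of_not_ctr c2)⟩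
  have hfin := (measureReal_mono (μ := μ.prod μ) hcov).trans ((measureReal_union_le _ _).trans
    (add_le_add_left (measureReal_union_le _ _) _))
  have hlog1 : (1 : ℝ) ≤ Real.log R := by
    rw [Real.le_log_iff_exp_le hRR0]
    have h8 : (8 : ℝ) ≤ R := by exact_mod_cast hR
    have := Real.exp_one_lt_d9
    linarith
  have hJ4 : (J : ℝ) + 1 ≤ 3 * Real.log R := by
    have h3 : (2 : ℝ) ^ J ≤ R := by
      have : 2 ^ J ≤ R := by omega
      exact_mod_cast this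
    have h4 : (J : ℝ) * Real.log 2 ≤ Real.log R := by
      rw [← Real.log_pow]
      exact Real.log_le_log (by positivity) h3
    have h7 := Real.log_two_gt_d9
    have hJ0 : (0 : ℝ) ≤ J := Nat.cast_nonneg _
    nlinarith
  set L := Real.log R with hL
  set K0 := (2 * C + 1) * C2 * C * 32 with hK0
  have hK00 : 0 < K0 := by positivity
  set Q := qr R * qr R with hQ
  have hQ0 : 0 < Q := by positivity
  have hKQ : 0 < K0 * Q := by positivity
  have m1 := n1.trans (mul_le_mul_of_nonneg_right hJ4 hKQ.le)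
  have m2 := n2'.trans (mul_le_mul_of_nonneg_right hJ4 hKQ.le)
  have hCQ : 0 < C ^ 2 * 256 * Q := by positivity
  have m3 : C ^ 2 * 256 * Q ≤ C ^ 2 * 256 * Q * L := by nlinarith
  have m4 := hfin.trans (add_le_add (add_le_add m1 m2) n3)
  have e5 : (K0 * 6 + C ^ 2 * 256) * (Q * L) =
      3 * L * (K0 * Q) + 3 * L * (K0 * Q) + C ^ 2 * 256 * Q * L := by ring
  rw [e5]
  linarith

end Q292.LDep
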