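import Pool.Agent.Q292.LDep.PZ
import Pool.Agent.Q292.LDep.LowPt
import Pool.Agent.Q292.LDep.Up

/-!
First and second moments of the number of common states of two independent interfaces.
-/

set_option autoImplicit false

namespace Q292.LDep

open H974 Finset H342P H984P H984H MeasureTheory Pool.Agent.Y993.LL Q292.TVY

/-! ### powers -/

theorem qr8 {t : ℝ} (ht : 0 < t) : qr t ^ 8 * t ^ 2 = 1 := by
  unfold qr
  rw [← Real.rpow_natCast, ← Real.rpow_natCast, ← Real.rpow_mul ht.le, ← Real.rpow_add ht]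
  norm_num

theorem qr7 {t : ℝ} (ht : 0 < t) : qr t ^ 7 * t ^ (7/4 : ℝ) = 1 := by
  unfold qr
  rw [← Real.rpow_natCast, ← Real.rpow_mul ht.le, ← Real.rpow_add ht]
  norm_num

theorem qr3 {t : ℝ} (ht : 0 < t) : qr t ^ 3 * t ^ (1 - 1/4 : ℝ) = 1 := by
  unfold qr
  rw [← Real.rpow_natCast, ← Real.rpow_mul ht.le, ← Real.rpow_add ht]
  norm_num

theorem qr_pow (k : ℕ) : qr ((2 : ℝ) ^ k) = qr 2 ^ k := by
  unfold qr
  rw [← Real.rpow_natCast, ← Real.rpow_mul (by norm_num), mul_comm,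
    Real.rpow_mul (by norm_num), Real.rpow_natCast]

theorem qr_anti {x y : ℝ} (hx : 0 < x) (hxy : x ≤ y) : qr y ≤ qr x := by
  have := qr_le (x := y) (y := x) (M := 1) (by linarith) hx le_rfl (by linarith)
  rwa [one_mul] at this

/-! ### distances and annuli -/

/-- sup distance -/
def ds (u v : Vtx) : ℕ := max (u.1 - v.1).natAbs (u.2 - v.2).natAbs

theorem ds_far (u v : Vtx) : Far u (ds u v) v := by
  unfold Far ds
  omega

theorem ds_abs (u v : Vtx) : |u.1 - v.1| ≤ ds u v ∧ |u.2 - v.2| ≤ ds u v := by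
  unfold ds
  rw [abs_le, abs_le]
  omega

theorem ds_max (u v : Vtx) : max |u.1 - v.1| |u.2 - v.2| = ds u v := by
  unfold ds
  push_cast
  rfl

open Classical in
/-- the states in an annulus -/
noncomputable def Wk (u : Vtx) (a : ℕ) : Finset St :=
  (cst u (34 * a)).filter (fun x => Far u (31 * a) x.1)

theorem mem_Wk {u : Vtx} {a : ℕ} {x : St} :
    x ∈ Wk u a ↔ x.1 ∈ ctr u (34 * a) ∧ Far u (31 * a) x.1 := by
  classical
  unfold Wk
  rw [Finset.mem_filter, mem_cst]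

theorem card_Wk {u : Vtx} {a : ℕ} (ha : 1 ≤ a) : ((Wk u a).card : ℝ) ≤ 19044 * (a : ℝ) ^ 2 := by
  classical
  have h1 : (Wk u a).card ≤ (cst u (34 * a)).card := Finset.card_filter_le _ _
  have h2 : (cst u (34 * a)).card = (2 * (34 * a) + 1) ^ 2 * 4 := by
    unfold cst
    rw [Finset.card_product, card_ctr, Finset.card_univ]
    rfl
  rw [h2] at h1
  have h3 : ((Wk u a).card : ℝ) ≤ (2 * (34 * a) + 1) ^ 2 * 4 := by exact_mod_cast h1
  have h4 : (1 : ℝ) ≤ a := by exact_mod_cast ha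
  nlinarith

/-! ### first moment -/

theorem first_mom {c C : ℝ} (hc : 0 < c) (hC : 0 < C) (hL : LowA c (1/4))
    (hU : TwoUp C (1/4)) : ∃ c' : ℝ, 0 < c' ∧ ∀ (σ : St) (a : ℕ), 1 ≤ a →
      c' ≤ qr a ^ 6 * ∑ x ∈ Wk σ.1 a, pl σ x := by
  classical
  obtain ⟨c', hc', h⟩ := low_inf hc hC hL hU
  refine ⟨c' * c', by positivity, fun σ a ha => ?_⟩
  have ha0 : (0 : ℝ) < a := by exact_mod_cast ha
  have h1 := h σ a ha
  set m : ℝ := c' * (a : ℝ) ^ (7/4 : ℝ) with hm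
  have hm0 : 0 < m := by positivity
  set f : Cf → ℝ := fun ω => ∑ x ∈ Wk σ.1 a, ({ω | x ∈ loop (opn ω) σ} : Set Cf).indicator 1 ω
    with hf
  have hfi : ∀ x ∈ Wk σ.1 a, Integrable
      (({ω | x ∈ loop (opn ω) σ} : Set Cf).indicator (1 : Cf → ℝ)) μ := fun x _ =>
    (integrable_const (1 : ℝ)).indicator (meas_loop σ x)
  have hfint : ∫ ω, f ω ∂μ = ∑ x ∈ Wk σ.1 a, pl σ x := by
    rw [hf, integral_finsetSum _ hfi]
    exact Finset.sum_congr rfl fun x _ => integral_indicator_one (meas_loop σ x)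
  have hf0 : 0 ≤ᵐ[μ] f := by
    filter_upwards with ω
    exact Finset.sum_nonneg fun x _ => Set.indicator_nonneg (fun _ _ => zero_le_one) _
  have h2 := mul_meas_ge_le_integral_of_nonneg hf0 (integrable_finsetSum _ hfi) m
  rw [hfint] at h2
  have h3 : {ω : Cf | ∃ T : Finset St, (c' * (a:ℝ) ^ (7/4:ℝ) ≤ T.card) ∧ ∀ τ ∈ T,
      τ ∈ loop (opn ω) σ ∧ Far σ.1 (31 * a) τ.1 ∧ ¬ Far σ.1 (34 * a) τ.1} ⊆
      {ω | m ≤ f ω} := by
    rintro ω ⟨T, hT, hT2⟩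
    show m ≤ f ω
    refine hT.trans ?_
    have h4 : f ω = (((Wk σ.1 a).filter (fun x => x ∈ loop (opn ω) σ)).card : ℝ) := by
      rw [hf]
      simp only [Set.indicator_apply, Set.mem_ofPred_eq, Pi.one_apply]
      rw [Finset.sum_ite, Finset.sum_const_zero, add_zero, Finset.sum_const, nsmul_eq_mul,
        mul_one]
    rw [h4]
    have h5 : T.card ≤ ((Wk σ.1 a).filter (fun x => x ∈ loop (opn ω) σ)).card := by
      apply Finset.card_le_card
      intro x hx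
      obtain ⟨k1, k2, k3⟩ := hT2 x hx
      rw [Finset.mem_filter, mem_Wk]
      refine ⟨⟨?_, k2⟩, k1⟩
      rw [mem_ctr']
      unfold Far at k3
      push_cast
      omega
    exact_mod_cast h5
  have h4 : c' * (a:ℝ) ^ (-(1/4:ℝ)) ≤ μ.real {ω | m ≤ f ω} := h1.trans (measureReal_mono h3)
  have h5 : m * (c' * (a:ℝ) ^ (-(1/4:ℝ))) ≤ ∑ x ∈ Wk σ.1 a, pl σ x :=
    (mul_le_mul_of_nonneg_left h4 hm0.le).trans h2
  have hq := qr_pos ha0
  have h6 : qr a ^ 6 * (m * (c' * (a:ℝ) ^ (-(1/4:ℝ)))) = c' * c' := by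
    have e : qr a ^ 6 * (m * (c' * (a:ℝ) ^ (-(1/4:ℝ)))) =
        c' * c' * (qr a ^ 7 * (a : ℝ) ^ (7/4 : ℝ)) := by
      rw [hm]
      unfold qr
      ring
    rw [e, qr7 ha0, mul_one]
  rw [← h6]
  exact mul_le_mul_of_nonneg_left h5 (by positivity)

/-! ### the sum of the kernel -/

theorem sum_q {a : ℕ} (ha : 1 ≤ a) {u : Vtx} {x : St} (hx : x ∈ Wk u a) :
    qr a ^ 6 * ∑ y ∈ Wk u a, qr ((ds x.1 y.1 : ℝ) + 1) ^ 2 ≤ 68 ^ 6 * 256 := by
  classical
  have ha0 : (0 : ℝ) < a := by exact_mod_cast ha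
  obtain ⟨m, hm⟩ : ∃ m : ℕ, m = 68 * a := ⟨_, rfl⟩
  have hm1 : 1 ≤ m := by omega
  have hm0 : (0 : ℝ) < m := by exact_mod_cast hm1
  have hmr : (m : ℝ) = 68 * a := by rw [hm]; push_cast; rfl
  have hq : qr a ≤ 68 * qr m := qr_le ha0 hm0 (by norm_num) hmr.le
  have hqa := qr_pos ha0
  have hqm := qr_pos hm0
  rw [mem_Wk, mem_ctr'] at hx
  have hsub : Wk u a ⊆ cst x.1 m := by
    intro y hy
    rw [mem_Wk, mem_ctr'] at hy
    rw [mem_cst, mem_ctr']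
    push_cast at hx hy
    omega
  have hterm : ∀ y : St, qr ((ds x.1 y.1 : ℝ) + 1) ^ 2 ≤
      kr (1/4) (x.1.1 - y.1.1) * kr (1/4) (x.1.2 - y.1.2) := by
    intro y
    obtain ⟨e1, e2⟩ := ds_abs x.1 y.1
    have p : (0 : ℝ) < (ds x.1 y.1 : ℝ) + 1 := by positivity
    have k1 : qr ((ds x.1 y.1 : ℝ) + 1) ≤ kr (1/4) (x.1.1 - y.1.1) := by
      unfold kr
      apply qr_anti
      · have : (0:ℝ) ≤ ((|x.1.1 - y.1.1| : ℤ) : ℝ) := by exact_mod_cast abs_nonneg _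
        linarith
      · have : ((|x.1.1 - y.1.1| : ℤ) : ℝ) ≤ ds x.1 y.1 := by exact_mod_cast e1
        linarith
    have k2 : qr ((ds x.1 y.1 : ℝ) + 1) ≤ kr (1/4) (x.1.2 - y.1.2) := by
      unfold kr
      apply qr_anti
      · have : (0:ℝ) ≤ ((|x.1.2 - y.1.2| : ℤ) : ℝ) := by exact_mod_cast abs_nonneg _
        linarith
      · have : ((|x.1.2 - y.1.2| : ℤ) : ℝ) ≤ ds x.1 y.1 := by exact_mod_cast e2
        linarith
    have p0 := qr_pos p
    rw [sq]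
    exact mul_le_mul k1 k2 p0.le (p0.le.trans k1)
  have h1 : ∑ y ∈ Wk u a, qr ((ds x.1 y.1 : ℝ) + 1) ^ 2 ≤
      ∑ y ∈ cst x.1 m, kr (1/4) (x.1.1 - y.1.1) * kr (1/4) (x.1.2 - y.1.2) :=
    (Finset.sum_le_sum fun y _ => hterm y).trans
      (Finset.sum_le_sum_of_subset_of_nonneg hsub fun y _ _ =>
        mul_nonneg (kr_nonneg _ _) (kr_nonneg _ _))
  have h2 : ∑ y ∈ cst x.1 m, kr (1/4) (x.1.1 - y.1.1) * kr (1/4) (x.1.2 - y.1.2) ≤
      256 * ((m : ℝ) ^ (1 - 1/4 : ℝ) * (m : ℝ) ^ (1 - 1/4 : ℝ)) := by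
    unfold cst
    rw [Finset.sum_product]
    simp only [Finset.sum_const, Finset.card_univ, nsmul_eq_mul]
    have hcard : Fintype.card Q4 = 4 := rfl
    rw [hcard, ← Finset.mul_sum]
    unfold ctr
    rw [Finset.sum_product]
    simp only
    rw [← Finset.sum_mul_sum]
    have h3 := sum_kr_le (t := 1/4) (by norm_num) (by norm_num) hm1 (u := x.1.1) (r := x.1.1)
      (by omega) (by omega)
    have h4 := sum_kr_le (t := 1/4) (by norm_num) (by norm_num) hm1 (u := x.1.2) (r := x.1.2)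
      (by omega) (by omega)
    have h5 := mul_le_mul h3 h4 (Finset.sum_nonneg (fun x _ => kr_nonneg _ _)) (by positivity)
    have h6 := mul_le_mul_of_nonneg_left h5 (by norm_num : (0 : ℝ) ≤ 4)
    push_cast
    refine h6.trans (le_of_eq ?_)
    ring
  have h3 := h1.trans h2
  have h4 : qr a ^ 6 ≤ (68 * qr m) ^ 6 := pow_le_pow_left₀ hqa.le hq 6
  calc qr a ^ 6 * ∑ y ∈ Wk u a, qr ((ds x.1 y.1 : ℝ) + 1) ^ 2
      ≤ (68 * qr m) ^ 6 * (256 * ((m : ℝ) ^ (1 - 1/4 : ℝ) * (m : ℝ) ^ (1 - 1/4 : ℝ))) :=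
        mul_le_mul h4 h3 (Finset.sum_nonneg fun _ _ => sq_nonneg _) (by positivity)
    _ = 68 ^ 6 * 256 * ((qr m ^ 3 * (m : ℝ) ^ (1 - 1/4 : ℝ)) *
          (qr m ^ 3 * (m : ℝ) ^ (1 - 1/4 : ℝ))) := by ring
    _ = 68 ^ 6 * 256 := by rw [qr3 hm0]; ring

/-! ### pairs -/

/-- the probability that `x` and `y` are on the interface of `σ` -/
noncomputable def J (σ x y : St) : ℝ :=
  μ.real {ω | x ∈ loop (opn ω) σ ∧ y ∈ loop (opn ω) σ}

theorem J_nonneg (σ x y : St) : 0 ≤ J σ x y := measureReal_nonneg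

theorem J_symm (σ x y : St) : J σ x y = J σ y x := by
  unfold J
  congr 1
  ext ω
  exact and_comm

theorem J_near {C C2 : ℝ} (hC : 0 < C) (hU : TwoUp C (1/4)) (hC2 : 0 < C2) (hA : AnnUp C2) :
    ∃ C' : ℝ, 1 ≤ C' ∧
    (∀ (σ x y : St) (D : ℕ), 1 ≤ D → Far x.1 D σ.1 → Far y.1 D σ.1 → ds x.1 y.1 ≤ 3 * D →
      J σ x y ≤ C' * (qr ((ds x.1 y.1 : ℝ) + 1) * (qr D * qr D))) ∧
    (∀ (σ x y : St) (D : ℕ), 1 ≤ D → 1 ≤ ds σ.1 x.1 → Far σ.1 D y.1 → Far x.1 D y.1 →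
      ds σ.1 x.1 ≤ 3 * D → J σ x y ≤ C' * (qr (ds σ.1 x.1) * (qr D * qr D))) := by
  obtain ⟨Cp, hCp, hp⟩ := pair_up hC hU
  obtain ⟨Ct, hCt, ht⟩ := tri_up hC hU hC2 hA
  refine ⟨Cp + 2 * Ct, by linarith, ?_, ?_⟩
  · intro σ x y D hD hx hy hd
    have hDR : (0 : ℝ) < D := by exact_mod_cast hD
    have qD := qr_pos hDR
    have hj : J σ x y ≤ μ.real {ω | Conn (opn ω) x y ∧ Conn (opn ω) x σ} := by
      refine measureReal_mono ?_
      rintro ω ⟨h1, h2⟩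
      have h1' := conn_of_mem h1
      have h2' := conn_of_mem h2
      exact ⟨h1'.symm.trans h2', h1'.symm⟩
    rcases Nat.eq_zero_or_pos (ds x.1 y.1) with h0 | h0
    · have h1 : J σ x y ≤ μ.real {ω | Conn (opn ω) x σ} :=
        hj.trans (measureReal_mono fun ω h => h.2)
      have h2 := hp x σ D hD hx
      rw [h0]
      have e : ((0 : ℕ) : ℝ) + 1 = 1 := by norm_num
      rw [e, qr_one, one_mul]
      have : 0 ≤ 2 * Ct * (qr D * qr D) := by positivity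
      nlinarith
    · have h2 := ht x y σ (ds x.1 y.1) D h0 hD hd (ds_far _ _) (ds_abs _ _) hx hy
      have hd0 : (0 : ℝ) < ds x.1 y.1 := by exact_mod_cast h0
      have h3 : qr (ds x.1 y.1) ≤ 2 * qr ((ds x.1 y.1 : ℝ) + 1) :=
        qr_le hd0 (by positivity) (by norm_num) (by
          have : (1 : ℝ) ≤ ds x.1 y.1 := by exact_mod_cast h0
          linarith)
      have h4 : 0 < qr ((ds x.1 y.1 : ℝ) + 1) := qr_pos (by positivity)
      have h5 : Ct * (qr (ds x.1 y.1) * (qr D * qr D)) ≤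
          Ct * ((2 * qr ((ds x.1 y.1 : ℝ) + 1)) * (qr D * qr D)) := by
        apply mul_le_mul_of_nonneg_left _ (by linarith)
        exact mul_le_mul_of_nonneg_right h3 (by positivity)
      have h6 : 0 ≤ Cp * (qr ((ds x.1 y.1 : ℝ) + 1) * (qr D * qr D)) := by positivity
      nlinarith
  · intro σ x y D hD h1 h2 h3 hd
    have hDR : (0 : ℝ) < D := by exact_mod_cast hD
    have qD := qr_pos hDR
    have hd0 : (0 : ℝ) < ds σ.1 x.1 := by exact_mod_cast h1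
    have qd := qr_pos hd0
    have hj : J σ x y ≤ μ.real {ω | Conn (opn ω) σ x ∧ Conn (opn ω) σ y} := by
      refine measureReal_mono ?_
      rintro ω ⟨h1, h2⟩
      exact ⟨conn_of_mem h1, conn_of_mem h2⟩
    have h4 := ht σ x y (ds σ.1 x.1) D h1 hD hd (ds_far _ _) (ds_abs _ _) h2 h3
    have h5 : 0 ≤ Cp * (qr (ds σ.1 x.1) * (qr D * qr D)) := by positivity
    have h6 : 0 ≤ Ct * (qr (ds σ.1 x.1) * (qr D * qr D)) := by positivity
    nlinarith

end Q292.LDep
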