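import Pool.Agent.Q292.LDep.Sec

/-!
Two independent interfaces meet: lower bound.
-/

set_option autoImplicit false

namespace Q292.LDep

open H974 Finset H342P H984P H984H MeasureTheory Pool.Agent.Y993.LL Q292.TVY

/-- the weighted second moment of two annuli -/
noncomputable def MM (σ τ : St) (a a' : ℕ) : ℝ :=
  qr a ^ 6 * qr a' ^ 6 * ∑ x ∈ Wk σ.1 a, ∑ y ∈ Wk σ.1 a', J σ x y * J τ x y

theorem MM_symm (σ τ : St) (a a' : ℕ) : MM σ τ a a' = MM σ τ a' a := by
  unfold MM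
  rw [Finset.sum_comm, mul_comm (qr a ^ 6)]
  congr 1
  refine Finset.sum_congr rfl fun y _ => Finset.sum_congr rfl fun x _ => ?_
  rw [J_symm σ, J_symm τ]

theorem half_fac {R : ℕ} (hR : 2 ≤ R) : 1 ≤ R / 2 ∧ qr ((R / 2 : ℕ) : ℝ) ≤ 4 * qr R := by
  have h1 : 1 ≤ R / 2 := by omega
  refine ⟨h1, qr_le (by exact_mod_cast h1) (by
    have : 0 < R := by omega
    exact_mod_cast this) (by norm_num) ?_⟩
  have : R ≤ 4 * (R / 2) := by omega
  exact_mod_cast this

theorem diag {C' : ℝ} (hC' : 1 ≤ C')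
    (hJ : ∀ (σ x y : St) (D : ℕ), 1 ≤ D → Far x.1 D σ.1 → Far y.1 D σ.1 →
      ds x.1 y.1 ≤ 3 * D → J σ x y ≤ C' * (qr ((ds x.1 y.1 : ℝ) + 1) * (qr D * qr D)))
    {σ τ : St} {R a : ℕ} (ha : 1 ≤ a) (haR : 136 * a ≤ R) (hf : Far σ.1 R τ.1) :
    MM σ τ a a ≤ 19044 * (68 ^ 6 * 256) * 16 * C' ^ 2 * (qr R * qr R) := by
  have ha0 : (0 : ℝ) < a := by exact_mod_cast ha
  have hR0 : (0 : ℝ) < R := by
    have : 0 < R := by omega
    exact_mod_cast this
  have qa := qr_pos ha0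
  have qR := qr_pos hR0
  obtain ⟨hD1, hqD⟩ := half_fac (R := R) (by omega)
  have qD : 0 < qr ((R / 2 : ℕ) : ℝ) := qr_pos (by exact_mod_cast hD1)
  have one : ∀ x ∈ Wk σ.1 a, ∀ y ∈ Wk σ.1 a, J σ x y * J τ x y ≤
      16 * C' ^ 2 * (qr a * qr a) * (qr R * qr R) * qr ((ds x.1 y.1 : ℝ) + 1) ^ 2 := by
    intro x hx y hy
    rw [mem_Wk, mem_ctr'] at hx hy
    push_cast at hx hy
    have hdxy : ds x.1 y.1 ≤ 68 * a := by
      unfold ds
      omega
    have j1 := hJ σ x y (31 * a) (by omega) (by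
      unfold Far at hx ⊢; push_cast; omega) (by unfold Far at hy ⊢; push_cast; omega) (by omega)
    have j2 := hJ τ x y (R / 2) hD1 (by unfold Far at hf ⊢; omega)
      (by unfold Far at hf ⊢; omega) (by omega)
    have hq31 : qr ((31 * a : ℕ) : ℝ) ≤ qr a := qr_anti ha0 (by push_cast; linarith)
    have q31 : 0 < qr ((31 * a : ℕ) : ℝ) := qr_pos (by positivity)
    have qd : 0 < qr ((ds x.1 y.1 : ℝ) + 1) := qr_pos (by positivity)
    have k1 : J σ x y ≤ C' * (qr ((ds x.1 y.1 : ℝ) + 1) * (qr a * qr a)) := by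
      refine j1.trans ?_
      apply mul_le_mul_of_nonneg_left _ (by linarith)
      apply mul_le_mul_of_nonneg_left _ qd.le
      exact mul_le_mul hq31 hq31 q31.le qa.le
    have k2 : J τ x y ≤ C' * (qr ((ds x.1 y.1 : ℝ) + 1) * (16 * (qr R * qr R))) := by
      refine j2.trans ?_
      apply mul_le_mul_of_nonneg_left _ (by linarith)
      apply mul_le_mul_of_nonneg_left _ qd.le
      calc qr ((R / 2 : ℕ) : ℝ) * qr ((R / 2 : ℕ) : ℝ) ≤ (4 * qr R) * (4 * qr R) :=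
            mul_le_mul hqD hqD qD.le (by positivity)
        _ = 16 * (qr R * qr R) := by ring
    refine (mul_le_mul k1 k2 (J_nonneg _ _ _) (by positivity)).trans (le_of_eq ?_)
    ring
  set K := 16 * C' ^ 2 * (qr a * qr a) * (qr R * qr R) with hK
  have hK0 : 0 < K := by positivity
  have hsum : ∑ x ∈ Wk σ.1 a, ∑ y ∈ Wk σ.1 a, J σ x y * J τ x y ≤
      ∑ x ∈ Wk σ.1 a, K * ∑ y ∈ Wk σ.1 a, qr ((ds x.1 y.1 : ℝ) + 1) ^ 2 := by
    refine Finset.sum_le_sum fun x hx => ?_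
    rw [Finset.mul_sum]
    exact Finset.sum_le_sum fun y hy => one x hx y hy
  have hsum2 : qr a ^ 6 * ∑ x ∈ Wk σ.1 a, ∑ y ∈ Wk σ.1 a, J σ x y * J τ x y ≤
      19044 * (a : ℝ) ^ 2 * (K * (68 ^ 6 * 256)) := by
    calc qr a ^ 6 * ∑ x ∈ Wk σ.1 a, ∑ y ∈ Wk σ.1 a, J σ x y * J τ x y
        ≤ qr a ^ 6 * ∑ x ∈ Wk σ.1 a, K * ∑ y ∈ Wk σ.1 a, qr ((ds x.1 y.1 : ℝ) + 1) ^ 2 :=
          mul_le_mul_of_nonneg_left hsum (by positivity)
      _ = ∑ x ∈ Wk σ.1 a, K * (qr a ^ 6 * ∑ y ∈ Wk σ.1 a,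
            qr ((ds x.1 y.1 : ℝ) + 1) ^ 2) := by
          rw [Finset.mul_sum]
          exact Finset.sum_congr rfl fun x _ => by ring
      _ ≤ ∑ _x ∈ Wk σ.1 a, K * (68 ^ 6 * 256) := by
          refine Finset.sum_le_sum fun x hx => ?_
          exact mul_le_mul_of_nonneg_left (sum_q ha hx) hK0.le
      _ = ((Wk σ.1 a).card : ℝ) * (K * (68 ^ 6 * 256)) := by
          rw [Finset.sum_const, nsmul_eq_mul]
      _ ≤ 19044 * (a : ℝ) ^ 2 * (K * (68 ^ 6 * 256)) :=
          mul_le_mul_of_nonneg_right (card_Wk ha) (by positivity)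
  have e8 := qr8 ha0
  calc MM σ τ a a = qr a ^ 6 * (qr a ^ 6 * ∑ x ∈ Wk σ.1 a, ∑ y ∈ Wk σ.1 a,
        J σ x y * J τ x y) := by unfold MM; ring
    _ ≤ qr a ^ 6 * (19044 * (a : ℝ) ^ 2 * (K * (68 ^ 6 * 256))) :=
        mul_le_mul_of_nonneg_left hsum2 (by positivity)
    _ = 19044 * (68 ^ 6 * 256) * 16 * C' ^ 2 * (qr R * qr R) * (qr a ^ 8 * (a : ℝ) ^ 2) := by
        rw [hK]; ring
    _ = _ := by rw [e8, mul_one]

theorem offd {C' : ℝ} (hC' : 1 ≤ C')
    (hJ : ∀ (σ x y : St) (D : ℕ), 1 ≤ D → Far x.1 D σ.1 → Far y.1 D σ.1 →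
      ds x.1 y.1 ≤ 3 * D → J σ x y ≤ C' * (qr ((ds x.1 y.1 : ℝ) + 1) * (qr D * qr D)))
    (hJ2 : ∀ (σ x y : St) (D : ℕ), 1 ≤ D → 1 ≤ ds σ.1 x.1 → Far σ.1 D y.1 → Far x.1 D y.1 →
      ds σ.1 x.1 ≤ 3 * D → J σ x y ≤ C' * (qr (ds σ.1 x.1) * (qr D * qr D)))
    {σ τ : St} {R a a' : ℕ} (ha : 1 ≤ a) (haa : 2 * a ≤ a') (haR : 136 * a' ≤ R)
    (hf : Far σ.1 R τ.1) :
    MM σ τ a a' * qr a ≤ 19044 ^ 2 * 16 * C' ^ 2 * (qr R * qr R) * qr a' := by
  have ha0 : (0 : ℝ) < a := by exact_mod_cast ha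
  have ha'0 : (0 : ℝ) < a' := by
    have : 0 < a' := by omega
    exact_mod_cast this
  have hR0 : (0 : ℝ) < R := by
    have : 0 < R := by omega
    exact_mod_cast this
  have qa := qr_pos ha0
  have qa' := qr_pos ha'0
  have qR := qr_pos hR0
  obtain ⟨hD1, hqD⟩ := half_fac (R := R) (by omega)
  have qD : 0 < qr ((R / 2 : ℕ) : ℝ) := qr_pos (by exact_mod_cast hD1)
  have one : ∀ x ∈ Wk σ.1 a, ∀ y ∈ Wk σ.1 a', J σ x y * J τ x y ≤
      16 * C' ^ 2 * (qr a * qr a' ^ 3) * (qr R * qr R) := by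
    intro x hx y hy
    rw [mem_Wk, mem_ctr'] at hx hy
    push_cast at hx hy
    have hdxy : ds x.1 y.1 ≤ 51 * a' := by
      unfold ds
      omega
    have hdxy' : 14 * a' ≤ ds x.1 y.1 := by
      unfold Far at hy
      unfold ds
      omega
    have hdx : ds σ.1 x.1 ≤ 34 * a := by
      unfold ds
      omega
    have hdx' : 31 * a ≤ ds σ.1 x.1 := by
      unfold Far at hx
      unfold ds
      omega
    have j1 := hJ2 σ x y (14 * a') (by omega) (by omega) (by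
      unfold Far at hy ⊢; push_cast; omega) (by unfold Far at hy ⊢; push_cast; omega) (by omega)
    have j2 := hJ τ x y (R / 2) hD1 (by unfold Far at hf ⊢; omega)
      (by unfold Far at hf ⊢; omega) (by omega)
    have hq14 : qr ((14 * a' : ℕ) : ℝ) ≤ qr a' := qr_anti ha'0 (by push_cast; linarith)
    have q14 : 0 < qr ((14 * a' : ℕ) : ℝ) := qr_pos (by push_cast; linarith)
    have qd : 0 < qr ((ds x.1 y.1 : ℝ) + 1) := qr_pos (by positivity)
    have hqd : qr ((ds x.1 y.1 : ℝ) + 1) ≤ qr a' := by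
      apply qr_anti ha'0
      have : a' ≤ ds x.1 y.1 := by omega
      have : (a' : ℝ) ≤ ds x.1 y.1 := by exact_mod_cast this
      linarith
    have hqs : qr (ds σ.1 x.1) ≤ qr a := by
      apply qr_anti ha0
      have : a ≤ ds σ.1 x.1 := by omega
      exact_mod_cast this
    have qs : 0 < qr (ds σ.1 x.1) := qr_pos (by
      have : 0 < ds σ.1 x.1 := by omega
      exact_mod_cast this)
    have k1 : J σ x y ≤ C' * (qr a * (qr a' * qr a')) := by
      refine j1.trans ?_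
      apply mul_le_mul_of_nonneg_left _ (by linarith)
      apply mul_le_mul hqs _ (by positivity) qa.le
      exact mul_le_mul hq14 hq14 q14.le qa'.le
    have k2 : J τ x y ≤ C' * (qr a' * (16 * (qr R * qr R))) := by
      refine j2.trans ?_
      apply mul_le_mul_of_nonneg_left _ (by linarith)
      apply mul_le_mul hqd _ (by positivity) qa'.le
      calc qr ((R / 2 : ℕ) : ℝ) * qr ((R / 2 : ℕ) : ℝ) ≤ (4 * qr R) * (4 * qr R) :=
            mul_le_mul hqD hqD qD.le (by positivity)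
        _ = 16 * (qr R * qr R) := by ring
    refine (mul_le_mul k1 k2 (J_nonneg _ _ _) (by positivity)).trans (le_of_eq ?_)
    ring
  set K := 16 * C' ^ 2 * (qr a * qr a' ^ 3) * (qr R * qr R) with hK
  have hK0 : 0 < K := by positivity
  have hsum : ∑ x ∈ Wk σ.1 a, ∑ y ∈ Wk σ.1 a', J σ x y * J τ x y ≤
      (19044 * (a : ℝ) ^ 2) * ((19044 * (a' : ℝ) ^ 2) * K) := by
    calc ∑ x ∈ Wk σ.1 a, ∑ y ∈ Wk σ.1 a', J σ x y * J τ x y
        ≤ ∑ _x ∈ Wk σ.1 a, ∑ _y ∈ Wk σ.1 a', K :=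
          Finset.sum_le_sum fun x hx => Finset.sum_le_sum fun y hy => one x hx y hy
      _ = ((Wk σ.1 a).card : ℝ) * (((Wk σ.1 a').card : ℝ) * K) := by
          rw [Finset.sum_const, Finset.sum_const, nsmul_eq_mul, nsmul_eq_mul]
      _ ≤ _ := by
          apply mul_le_mul (card_Wk ha) _ (by positivity) (by positivity)
          exact mul_le_mul_of_nonneg_right (card_Wk (by omega)) hK0.le
  have e8 := qr8 ha0
  have e8' := qr8 ha'0
  calc MM σ τ a a' * qr a = qr a ^ 7 * qr a' ^ 6 * ∑ x ∈ Wk σ.1 a, ∑ y ∈ Wk σ.1 a',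
        J σ x y * J τ x y := by unfold MM; ring
    _ ≤ qr a ^ 7 * qr a' ^ 6 * ((19044 * (a : ℝ) ^ 2) * ((19044 * (a' : ℝ) ^ 2) * K)) :=
        mul_le_mul_of_nonneg_left hsum (by positivity)
    _ = 19044 ^ 2 * 16 * C' ^ 2 * (qr R * qr R) * qr a' *
          ((qr a ^ 8 * (a : ℝ) ^ 2) * (qr a' ^ 8 * (a' : ℝ) ^ 2)) := by
        rw [hK]; ring
    _ = _ := by rw [e8, e8']; ring

/-- the event that `x` is a common state -/
def AE (σ τ : St) (x : St) : Set (Cf × Cf) :=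
  {ω | x ∈ loop (opn ω) σ} ×ˢ {ω | x ∈ loop (opn ω) τ}

theorem AE_meas (σ τ x : St) : MeasurableSet (AE σ τ x) := (meas_loop σ x).prod (meas_loop τ x)

theorem AE_law (σ τ x : St) : (μ.prod μ).real (AE σ τ x) = pl σ x * pl τ x := by
  unfold AE
  rw [measureReal_prod_prod]
  rfl

theorem AE_inter (σ τ x y : St) : (μ.prod μ).real (AE σ τ x ∩ AE σ τ y) = J σ x y * J τ x y := by
  have h : AE σ τ x ∩ AE σ τ y = {ω | x ∈ loop (opn ω) σ ∧ y ∈ loop (opn ω) σ} ×ˢ
      {ω | x ∈ loop (opn ω) τ ∧ y ∈ loop (opn ω) τ} := by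
    unfold AE
    rw [Set.prod_inter_prod]
    rfl
  rw [h, measureReal_prod_prod]
  rfl

theorem qr2 : 0 < qr 2 ∧ qr 2 < 1 := by
  refine ⟨qr_pos (by norm_num), ?_⟩
  unfold qr
  exact Real.rpow_lt_one_of_one_lt_of_neg (by norm_num) (by norm_num)

/-- **Lower bound, the number of scales.** -/
theorem lower_K {c C C2 : ℝ} (hc : 0 < c) (hL : LowA c (1/4)) (hC : 0 < C)
    (hU : TwoUp C (1/4)) (hC2 : 0 < C2) (hA : AnnUp C2) : ∃ c' : ℝ, 0 < c' ∧
    ∀ (σ τ : St) (R K : ℕ), 150 ≤ R → max |σ.1.1 - τ.1.1| |σ.1.2 - τ.1.2| = R →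
      (∀ k < K, 136 * 2 ^ k ≤ R) →
      c' * (K * (qr R * qr R)) ≤ (μ.prod μ).real {p : Cf × Cf | ∃ x : St,
        x ∈ loop (opn p.1) σ ∧ x ∈ loop (opn p.2) τ} := by
  classical
  have hcl : ∀ σ : St, ∀ᵐ ω ∂μ, Closed (opn ω) σ := closed_ae (by norm_num) hU
  obtain ⟨c1, hc1, h1⟩ := first_mom hc hC hL hU
  obtain ⟨c2, hc2, h2⟩ := low_pt hc hL hcl
  obtain ⟨C', hC', hJ, hJ2⟩ := J_near hC hU hC2 hA
  obtain ⟨r0, r1⟩ := qr2
  set B0 : ℝ := 19044 ^ 2 * (68 ^ 6 * 256) * 16 * C' ^ 2 with hB0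
  have hB0p : 0 < B0 := by positivity
  set G : ℝ := B0 * (3 / (1 - qr 2)) with hG
  have hGp : 0 < G := by
    have : 0 < 1 - qr 2 := by linarith
    positivity
  refine ⟨(c1 * (c2 / 4)) ^ 2 / G, by positivity, ?_⟩
  intro σ τ R K hR hd hK
  have hR0 : (0 : ℝ) < R := by
    have : 0 < R := by omega
    exact_mod_cast this
  have qR := qr_pos hR0
  set Q := qr R * qr R with hQ
  have hQ0 : 0 < Q := by positivity
  have hdR : ds σ.1 τ.1 = R := by
    have := ds_max σ.1 τ.1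
    rw [hd] at this
    exact_mod_cast this.symm
  have hf : Far σ.1 R τ.1 := by
    have := ds_far σ.1 τ.1
    rwa [hdR] at this
  set I : Finset (Σ _ : ℕ, St) := (Finset.range K).sigma (fun k => Wk σ.1 (2 ^ k)) with hI
  set w : (Σ _ : ℕ, St) → ℝ := fun i => qr (2 ^ i.1) ^ 6 with hw
  have key := pz (μ.prod μ) I w (fun i => AE σ τ i.2) (fun i _ => AE_meas σ τ i.2)
  -- first moment
  have m1 : (K : ℝ) * (c1 * (c2 / 4) * Q) ≤ ∑ i ∈ I, w i * (μ.prod μ).real (AE σ τ i.2) := by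
    rw [hI, Finset.sum_sigma]
    have hk : ∀ k ∈ Finset.range K, c1 * (c2 / 4) * Q ≤
        ∑ x ∈ Wk σ.1 (2 ^ k), w ⟨k, x⟩ * (μ.prod μ).real (AE σ τ x) := by
      intro k hk
      have hkR := hK k (Finset.mem_range.mp hk)
      have h2k : 1 ≤ 2 ^ k := Nat.one_le_two_pow
      have h3 : ∀ x ∈ Wk σ.1 (2 ^ k), c2 / 4 * Q ≤ pl τ x := by
        intro x hx
        rw [mem_Wk, mem_ctr'] at hx
        have hx1 := hx.1
        have hx2 : ds τ.1 x.1 ≤ 2 * R ∧ 112 ≤ ds τ.1 x.1 := by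
          have h4 := ds_abs σ.1 τ.1
          rw [hdR, abs_le, abs_le] at h4
          unfold Far at hf
          push_cast at hx1
          have hkR' : (136 : ℤ) * 2 ^ k ≤ R := by exact_mod_cast hkR
          have hR' : (150 : ℤ) ≤ R := by exact_mod_cast hR
          generalize (2 : ℤ) ^ k = t at hx1 hkR'
          unfold ds
          constructor <;> omega
        have h5 := h2 τ x (ds τ.1 x.1) hx2.2 (ds_max _ _)
        have hds0 : (0 : ℝ) < ds τ.1 x.1 := by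
          have : 0 < ds τ.1 x.1 := by omega
          exact_mod_cast this
        have h6 : qr R ≤ 2 * qr (ds τ.1 x.1) := qr_le hR0 hds0 (by norm_num) (by
          exact_mod_cast hx2.1)
        have h7 := qr_pos hds0
        have h8 : Q ≤ 4 * (qr (ds τ.1 x.1) * qr (ds τ.1 x.1)) := by
          rw [hQ]
          nlinarith
        have h9 : c2 / 4 * Q ≤ c2 * (qr (ds τ.1 x.1) * qr (ds τ.1 x.1)) := by nlinarith
        exact h9.trans h5
      have h4 := h1 σ (2 ^ k) h2k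
      have e2k : ((2 ^ k : ℕ) : ℝ) = (2 : ℝ) ^ k := by push_cast; rfl
      rw [e2k] at h4
      have q0 : 0 < qr ((2 : ℝ) ^ k) := qr_pos (by positivity)
      calc c1 * (c2 / 4) * Q = c1 * (c2 / 4 * Q) := by ring
        _ ≤ (qr ((2 : ℝ) ^ k) ^ 6 * ∑ x ∈ Wk σ.1 (2 ^ k), pl σ x) * (c2 / 4 * Q) :=
            mul_le_mul_of_nonneg_right h4 (by positivity)
        _ = ∑ x ∈ Wk σ.1 (2 ^ k), qr ((2 : ℝ) ^ k) ^ 6 * (pl σ x * (c2 / 4 * Q)) := by
            rw [Finset.mul_sum, Finset.sum_mul]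
            exact Finset.sum_congr rfl fun x _ => by ring
        _ ≤ ∑ x ∈ Wk σ.1 (2 ^ k), w ⟨k, x⟩ * (μ.prod μ).real (AE σ τ x) := by
            refine Finset.sum_le_sum fun x hx => ?_
            rw [AE_law]
            apply mul_le_mul_of_nonneg_left _ (by positivity)
            exact mul_le_mul_of_nonneg_left (h3 x hx) (pl_nonneg _ _)
    refine le_trans (le_of_eq ?_) (Finset.sum_le_sum hk)
    rw [Finset.sum_const, Finset.card_range, nsmul_eq_mul]
  -- second moment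
  have m2 : ∑ i ∈ I, ∑ j ∈ I, w i * w j * (μ.prod μ).real (AE σ τ i.2 ∩ AE σ τ j.2) ≤
      K * (G * Q) := by
    have e1 : ∑ i ∈ I, ∑ j ∈ I, w i * w j * (μ.prod μ).real (AE σ τ i.2 ∩ AE σ τ j.2) =
        ∑ k ∈ Finset.range K, ∑ l ∈ Finset.range K, MM σ τ (2 ^ k) (2 ^ l) := by
      rw [hI, Finset.sum_sigma]
      refine Finset.sum_congr rfl fun k _ => ?_
      have : ∀ x ∈ Wk σ.1 (2 ^ k), ∑ j ∈ (Finset.range K).sigma (fun k => Wk σ.1 (2 ^ k)),
          w ⟨k, x⟩ * w j * (μ.prod μ).real (AE σ τ x ∩ AE σ τ j.2) =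
          ∑ l ∈ Finset.range K, ∑ y ∈ Wk σ.1 (2 ^ l),
            qr ((2 : ℝ) ^ k) ^ 6 * qr ((2 : ℝ) ^ l) ^ 6 * (J σ x y * J τ x y) := by
        intro x _
        rw [Finset.sum_sigma]
        refine Finset.sum_congr rfl fun l _ => Finset.sum_congr rfl fun y _ => ?_
        rw [AE_inter]
      rw [Finset.sum_congr rfl this, Finset.sum_comm]
      refine Finset.sum_congr rfl fun l _ => ?_
      unfold MM
      rw [Finset.mul_sum]
      refine Finset.sum_congr rfl fun x _ => ?_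
      rw [Finset.mul_sum]
      push_cast
      rfl
    rw [e1]
    -- pairs of scales beyond the range do not matter
    set T : ℕ → ℕ → ℝ := fun k l => if k < K ∧ l < K then MM σ τ (2 ^ k) (2 ^ l) else 0 with hTd
    have hTk : ∀ k l, k ≤ l → T k l ≤ (B0 * Q) * qr 2 ^ (l - k) := by
      intro k l hkl
      rw [hTd]
      simp only
      split_ifs with hkl2
      · have hkR := hK l hkl2.2
        have h2k : 1 ≤ 2 ^ k := Nat.one_le_two_pow
        rcases Nat.eq_or_lt_of_le hkl with h | h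
        · subst h
          rw [Nat.sub_self, pow_zero, mul_one]
          refine (diag hC' hJ h2k hkR hf).trans ?_
          apply mul_le_mul_of_nonneg_right _ hQ0.le
          rw [hB0]
          have : 0 < (68 ^ 6 * 256) * 16 * C' ^ 2 := by positivity
          nlinarith
        · have h2l : 2 * 2 ^ k ≤ 2 ^ l := by
            rw [← pow_succ']
            exact Nat.pow_le_pow_right (by norm_num) h
          have h3 := offd hC' hJ hJ2 h2k h2l hkR hf
          have e2k : ((2 ^ k : ℕ) : ℝ) = (2 : ℝ) ^ k := by push_cast; rfl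
          have e2l : ((2 ^ l : ℕ) : ℝ) = (2 : ℝ) ^ l := by push_cast; rfl
          rw [e2k, e2l, qr_pow, qr_pow] at h3
          have e3 : qr 2 ^ l = qr 2 ^ (l - k) * qr 2 ^ k := by
            rw [← pow_add]
            congr 1
            omega
          rw [e3, ← mul_assoc] at h3
          have h4 := le_of_mul_le_mul_right h3 (pow_pos r0 k)
          refine h4.trans ?_
          apply mul_le_mul_of_nonneg_right _ (pow_nonneg r0.le _)
          apply mul_le_mul_of_nonneg_right _ hQ0.le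
          rw [hB0]
          have : 0 < C' ^ 2 := by positivity
          nlinarith
      · positivity
    have hTs : ∀ k l, T k l = T l k := by
      intro k l
      rw [hTd]
      simp only
      by_cases h : k < K ∧ l < K
      · rw [if_pos h, if_pos h.symm, MM_symm]
      · rw [if_neg h, if_neg (fun h' => h h'.symm)]
    have hTk' : ∀ k l, k ≤ l → T l k ≤ (B0 * Q) * qr 2 ^ (l - k) := by
      intro k l hkl
      rw [hTs]
      exact hTk k l hkl
    have h5 := geo r0.le r1 (by positivity : 0 ≤ B0 * Q) T hTk hTk' K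
    refine le_trans (le_of_eq ?_) (h5.trans (le_of_eq ?_))
    · refine Finset.sum_congr rfl fun k hk => Finset.sum_congr rfl fun l hl => ?_
      rw [hTd]
      simp only
      rw [if_pos ⟨Finset.mem_range.mp hk, Finset.mem_range.mp hl⟩]
    · rw [hG]; ring
  -- conclusion
  set U := (μ.prod μ).real (⋃ i ∈ I, AE σ τ i.2) with hU'
  have hU0 : 0 ≤ U := measureReal_nonneg
  have hsub : (⋃ i ∈ I, AE σ τ i.2) ⊆ {p : Cf × Cf | ∃ x : St,
      x ∈ loop (opn p.1) σ ∧ x ∈ loop (opn p.2) τ} := by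
    intro p hp
    rw [Set.mem_iUnion₂] at hp
    obtain ⟨i, -, h1, h2⟩ := hp
    exact ⟨i.2, h1, h2⟩
  refine le_trans ?_ (measureReal_mono hsub (measure_ne_top _ _))
  show (c1 * (c2 / 4)) ^ 2 / G * (K * Q) ≤ U
  rcases Nat.eq_zero_or_pos K with h0 | h0
  · rw [h0]
    simp only [Nat.cast_zero, zero_mul, mul_zero]
    exact hU0
  · have hK0 : (0 : ℝ) < K := by exact_mod_cast h0
    have h3 : ((K : ℝ) * (c1 * (c2 / 4) * Q)) ^ 2 ≤ U * (K * (G * Q)) := by
      have h4 : ((K : ℝ) * (c1 * (c2 / 4) * Q)) ^ 2 ≤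
          (∑ i ∈ I, w i * (μ.prod μ).real (AE σ τ i.2)) ^ 2 :=
        pow_le_pow_left₀ (by positivity) m1 2
      exact h4.trans (key.trans (mul_le_mul_of_nonneg_left m2 hU0))
    have h6 : (c1 * (c2 / 4)) ^ 2 / G * (K * Q) =
        ((K : ℝ) * (c1 * (c2 / 4) * Q)) ^ 2 / (K * (G * Q)) := by
      field_simp
    rw [h6, div_le_iff₀ (by positivity)]
    exact h3

end Q292.LDep
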