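import Pool.Agent.Q292.LDep.Net
import Pool.Agent.Q292.LDep.Corner

/-!
Lower bound for the probability that two states are on the same interface.
-/

set_option autoImplicit false

namespace Q292.LDep

open H974 Finset H342P H984P MeasureTheory Pool.Agent.Y993.LL

variable {A B : Vtx} {X1 X2 : ℤ} {b : ℕ}

theorem pr_fe (h : Pos A B X1 X2 b) {S : Finset Edg} (hS : T1 A B X1 X2 b ⊆ S) :
    κ0 * κ0 * κ0 ≤ Pr (fun _ => (1/2:ℝ)) S (fe A B X1 X2 b) := by
  obtain ⟨b1, y1, y2, sep, xa, xb, xc, xd, wid⟩ := h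
  have s1 : LRE X1 X2 (A.2 - 8 * b) (A.2 - 4 * b) ⊆ S :=
    Finset.subset_union_left.trans (Finset.subset_union_left.trans hS)
  have s2 : TBE (B.1 - 2 * b) (B.1 + 2 * b) (A.2 - 8 * b) (B.2 - 4 * b) ⊆ S :=
    Finset.subset_union_right.trans (Finset.subset_union_left.trans hS)
  have s3 : LRE (B.1 - 13 * b) (B.1 + 14 * b) (B.2 - 8 * b) (B.2 - 4 * b) ⊆ S :=
    Finset.subset_union_right.trans hS
  apply harris3 (LRc_incr _ _ _ _ _) (TBc_incr _ _ _ _ _) (LRc_incr _ _ _ _ _)
  · rw [pr_LRc _ s1]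
    exact hh_ge b1 (by omega) (by omega) (by omega)
  · rw [pr_TBc _ s2]
    exact hh_ge b1 (by omega) (by omega) (by omega)
  · rw [pr_LRc _ s3]
    exact hh_ge b1 (by omega) (by omega) (by omega)

theorem pr_ge (h : Pos A B X1 X2 b) {S : Finset Edg} (hS : T2 A B X1 X2 b ⊆ S) :
    κ0 * κ0 * κ0 ≤ Pr (fun _ => (1/2:ℝ)) S (ge A B X1 X2 b) := by
  obtain ⟨b1, y1, y2, sep, xa, xb, xc, xd, wid⟩ := h
  have s1 : LRE X1 X2 (B.2 + 4 * b) (B.2 + 8 * b) ⊆ S :=
    Finset.subset_union_left.trans (Finset.subset_union_left.trans hS)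
  have s2 : TBE (A.1 - 2 * b) (A.1 + 2 * b) (A.2 + 4 * b) (B.2 + 8 * b) ⊆ S :=
    Finset.subset_union_right.trans (Finset.subset_union_left.trans hS)
  have s3 : LRE (A.1 - 13 * b) (A.1 + 14 * b) (A.2 + 4 * b) (A.2 + 8 * b) ⊆ S :=
    Finset.subset_union_right.trans hS
  apply harris3 (LRc_incr _ _ _ _ _) (TBc_incr _ _ _ _ _) (LRc_incr _ _ _ _ _)
  · rw [pr_LRc _ s1]
    exact hh_ge b1 (by omega) (by omega) (by omega)
  · rw [pr_TBc _ s2]
    exact hh_ge b1 (by omega) (by omega) (by omega)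
  · rw [pr_LRc _ s3]
    exact hh_ge b1 (by omega) (by omega) (by omega)

/-- the primal connection -/
theorem conn_p (h : Pos A B X1 X2 b) {F : Finset Edg} (hA : RA A b (↑F)) (hB : RA B b (↑F))
    (hf : fe A B X1 X2 b F) : Reach (↑F : Set Edg) A B := by
  obtain ⟨b1, y1, y2, sep, xa, xb, xc, xd, wid⟩ := h
  obtain ⟨⟨wA, hwA, hRA⟩, -⟩ := hA
  obtain ⟨⟨wB, hwB, hRB⟩, -⟩ := hB
  obtain ⟨⟨⟨y, y', hy, hy', hH⟩, ⟨x, x', hx, hx', hV⟩⟩, ⟨z, z', hz, hz', hL⟩⟩ := hf
  set S := SS A B X1 X2 b with hS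
  have sPA : PR A b ⊆ S := by
    rintro ⟨x, y, _ | _⟩ h
    · simp only [PR, hS, SS, mem_RE_false] at h ⊢; omega
    · simp only [PR, hS, SS, mem_RE_true] at h ⊢; omega
  have sPB : PR B b ⊆ S := by
    rintro ⟨x, y, _ | _⟩ h
    · simp only [PR, hS, SS, mem_RE_false] at h ⊢; omega
    · simp only [PR, hS, SS, mem_RE_true] at h ⊢; omega
  have sH : LRE X1 X2 (A.2 - 8 * b) (A.2 - 4 * b) ⊆ S := by
    rintro ⟨x, y, _ | _⟩ h
    · simp only [hS, SS, mem_RE_false, mem_LRE_false] at h ⊢; omega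
    · simp only [hS, SS, mem_RE_true, mem_LRE_true] at h ⊢; omega
  have sV : TBE (B.1 - 2 * b) (B.1 + 2 * b) (A.2 - 8 * b) (B.2 - 4 * b) ⊆ S := by
    rintro ⟨x, y, _ | _⟩ h
    · simp only [hS, SS, mem_RE_false, mem_TBE_false] at h ⊢; omega
    · simp only [hS, SS, mem_RE_true, mem_TBE_true] at h ⊢; omega
  have sL : LRE (B.1 - 13 * b) (B.1 + 14 * b) (B.2 - 8 * b) (B.2 - 4 * b) ⊆ S := by
    rintro ⟨x, y, _ | _⟩ h
    · simp only [hS, SS, mem_RE_false, mem_LRE_false] at h ⊢; omega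
    · simp only [hS, SS, mem_RE_true, mem_LRE_true] at h ⊢; omega
  -- `A` and the lower strip
  have e1 : Reach ((↑F : Set Edg) ∩ ↑S) wA (X1, y) := by
    refine meet_gen (p := A.1 - 12 * b) (q := A.1 + 12 * b) (c := A.2 - 8 * b)
      (d := A.2 - 4 * b) (by omega) (by omega) sPA sH ?_ ?_ ?_ ?_ ?_
      hRA.symm (by omega) (by omega) hH (by simp only; omega) (by simp only; omega)
    · rintro ⟨x, y, _ | _⟩ h
      · simp only [hS, SS, mem_RE_false] at h ⊢; omega
      · simp only [hS, SS, mem_RE_true] at h ⊢; omega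
    · intro x y h; simp only [PR, mem_RE_false] at h; omega
    · intro x y h; simp only [PR, mem_RE_true] at h; omega
    · intro x y h; simp only [mem_LRE_true] at h; omega
    · intro x y h; simp only [mem_LRE_false] at h; omega
  -- `B` and its strip
  have e2 : Reach ((↑F : Set Edg) ∩ ↑S) wB (B.1 - 13 * b, z) := by
    refine meet_gen (p := B.1 - 12 * b) (q := B.1 + 12 * b) (c := B.2 - 8 * b)
      (d := B.2 - 4 * b) (by omega) (by omega) sPB sL ?_ ?_ ?_ ?_ ?_
      hRB.symm (by omega) (by omega) hL (by simp only; omega) (by simp only; omega)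
    · rintro ⟨x, y, _ | _⟩ h
      · simp only [hS, SS, mem_RE_false] at h ⊢; omega
      · simp only [hS, SS, mem_RE_true] at h ⊢; omega
    · intro x y h; simp only [PR, mem_RE_false] at h; omega
    · intro x y h; simp only [PR, mem_RE_true] at h; omega
    · intro x y h; simp only [mem_LRE_true] at h; omega
    · intro x y h; simp only [mem_LRE_false] at h; omega
  -- the column and the lower strip
  have e3 : Reach ((↑F : Set Edg) ∩ ↑S) (x, A.2 - 8 * b) (X1, y) := by
    refine meet_gen (p := B.1 - 2 * b) (q := B.1 + 2 * b) (c := A.2 - 8 * b)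
      (d := A.2 - 4 * b) (by omega) (by omega) sV sH ?_ ?_ ?_ ?_ ?_
      hV (by simp only; omega) (by simp only; omega) hH (by simp only; omega)
      (by simp only; omega)
    · rintro ⟨x, y, _ | _⟩ h
      · simp only [hS, SS, mem_RE_false] at h ⊢; omega
      · simp only [hS, SS, mem_RE_true] at h ⊢; omega
    · intro x y h; simp only [mem_TBE_false] at h; omega
    · intro x y h; simp only [mem_TBE_true] at h; omega
    · intro x y h; simp only [mem_LRE_true] at h; omega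
    · intro x y h; simp only [mem_LRE_false] at h; omega
  -- the column and the strip of `B`
  have e4 : Reach ((↑F : Set Edg) ∩ ↑S) (x, A.2 - 8 * b) (B.1 - 13 * b, z) := by
    refine meet_gen (p := B.1 - 2 * b) (q := B.1 + 2 * b) (c := B.2 - 8 * b)
      (d := B.2 - 4 * b) (by omega) (by omega) sV sL ?_ ?_ ?_ ?_ ?_
      hV (by simp only; omega) (by simp only; omega) hL (by simp only; omega)
      (by simp only; omega)
    · rintro ⟨x, y, _ | _⟩ h
      · simp only [hS, SS, mem_RE_false] at h ⊢; omega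
      · simp only [hS, SS, mem_RE_true] at h ⊢; omega
    · intro x y h; simp only [mem_TBE_false] at h; omega
    · intro x y h; simp only [mem_TBE_true] at h; omega
    · intro x y h; simp only [mem_LRE_true] at h; omega
    · intro x y h; simp only [mem_LRE_false] at h; omega
  have f1 : Reach (↑F : Set Edg) wA (X1, y) := e1.mono Set.inter_subset_left
  have f2 : Reach (↑F : Set Edg) wB (B.1 - 13 * b, z) := e2.mono Set.inter_subset_left
  have f3 : Reach (↑F : Set Edg) (x, A.2 - 8 * b) (X1, y) := e3.mono Set.inter_subset_left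
  have f4 : Reach (↑F : Set Edg) (x, A.2 - 8 * b) (B.1 - 13 * b, z) :=
    e4.mono Set.inter_subset_left
  have f5 : Reach (↑F : Set Edg) A wA := hRA.mono Set.inter_subset_left
  have f6 : Reach (↑F : Set Edg) B wB := hRB.mono Set.inter_subset_left
  exact ((((f5.trans f1).trans f3.symm).trans f4).trans f2.symm).trans f6.symm

/-- the dual connection -/
theorem conn_d (h : Pos A B X1 X2 b) {F : Finset Edg} (hA : RA A b (↑F)) (hB : RA B b (↑F))
    (hg : ge A B X1 X2 b (dmp (SS A B X1 X2 b \ F))) :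
    DReach (↑(SS A B X1 X2 b \ F) : Set Edg) A B := by
  obtain ⟨b1, y1, y2, sep, xa, xb, xc, xd, wid⟩ := h
  obtain ⟨-, ⟨gA, hgA, hDA⟩⟩ := hA
  obtain ⟨-, ⟨gB, hgB, hDB⟩⟩ := hB
  obtain ⟨⟨⟨y, y', hy, hy', hH0⟩, ⟨x, x', hx, hx', hV0⟩⟩, ⟨z, z', hz, hz', hL0⟩⟩ := hg
  set H : Set Edg := dl '' (↑F : Set Edg)ᶜ with hH
  have hsub : (↑(dmp (SS A B X1 X2 b \ F)) : Set Edg) ⊆ H := by
    rw [coe_dmp, Finset.coe_sdiff]
    rintro _ ⟨e, ⟨-, he⟩, rfl⟩
    exact ⟨e, he, rfl⟩
  have conv : ∀ V : Finset Edg, dl '' (dE V \ ↑F) ⊆ H ∩ ↑V := by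
    rintro V _ ⟨e, ⟨he1, he2⟩, rfl⟩
    exact ⟨⟨e, he2, rfl⟩, he1⟩
  set S : Finset Edg := RE (X1 - b) (X2 + b) (A.2 - 14 * b) (B.2 + 14 * b) with hS
  have back : ∀ u w : Vtx, Reach (H ∩ ↑S) u w →
      DReach (↑(SS A B X1 X2 b \ F) : Set Edg) u w := by
    intro u w h
    rw [← reach_dl]
    refine h.mono ?_
    rintro _ ⟨⟨⟨x, y, b⟩, he, rfl⟩, he2⟩
    refine ⟨(x, y, b), ?_, rfl⟩
    rw [Finset.coe_sdiff]
    refine ⟨?_, he⟩
    cases b
    · simp only [hS, SS, dl_f, mem_RE_true, mem_coe, mem_RE_false] at he2 ⊢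
      omega
    · simp only [hS, SS, dl_t, mem_RE_true, mem_coe, mem_RE_false] at he2 ⊢
      omega
  have aA : Reach (H ∩ ↑(DR A b)) A gA := (reach_dl.mpr hDA).mono (conv _)
  have aB : Reach (H ∩ ↑(DR B b)) B gB := (reach_dl.mpr hDB).mono (conv _)
  have hH1 : Reach (H ∩ ↑(LRE X1 X2 (B.2 + 4 * b) (B.2 + 8 * b))) (X1, y) (X2, y') :=
    hH0.mono (Set.inter_subset_inter_left _ hsub)
  have hV : Reach (H ∩ ↑(TBE (A.1 - 2 * b) (A.1 + 2 * b) (A.2 + 4 * b) (B.2 + 8 * b)))
      (x, A.2 + 4 * b) (x', B.2 + 8 * b) := hV0.mono (Set.inter_subset_inter_left _ hsub)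
  have hL : Reach (H ∩ ↑(LRE (A.1 - 13 * b) (A.1 + 14 * b) (A.2 + 4 * b) (A.2 + 8 * b)))
      (A.1 - 13 * b, z) (A.1 + 14 * b, z') := hL0.mono (Set.inter_subset_inter_left _ hsub)
  have sPA : DR A b ⊆ S := by
    rintro ⟨x, y, _ | _⟩ h
    · simp only [DR, hS, mem_RE_false] at h ⊢; omega
    · simp only [DR, hS, mem_RE_true] at h ⊢; omega
  have sPB : DR B b ⊆ S := by
    rintro ⟨x, y, _ | _⟩ h
    · simp only [DR, hS, mem_RE_false] at h ⊢; omega
    · simp only [DR, hS, mem_RE_true] at h ⊢; omega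
  have sH : LRE X1 X2 (B.2 + 4 * b) (B.2 + 8 * b) ⊆ S := by
    rintro ⟨x, y, _ | _⟩ h
    · simp only [hS, mem_RE_false, mem_LRE_false] at h ⊢; omega
    · simp only [hS, mem_RE_true, mem_LRE_true] at h ⊢; omega
  have sV : TBE (A.1 - 2 * b) (A.1 + 2 * b) (A.2 + 4 * b) (B.2 + 8 * b) ⊆ S := by
    rintro ⟨x, y, _ | _⟩ h
    · simp only [hS, mem_RE_false, mem_TBE_false] at h ⊢; omega
    · simp only [hS, mem_RE_true, mem_TBE_true] at h ⊢; omega
  have sL : LRE (A.1 - 13 * b) (A.1 + 14 * b) (A.2 + 4 * b) (A.2 + 8 * b) ⊆ S := by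
    rintro ⟨x, y, _ | _⟩ h
    · simp only [hS, mem_RE_false, mem_LRE_false] at h ⊢; omega
    · simp only [hS, mem_RE_true, mem_LRE_true] at h ⊢; omega
  -- `B` and the upper strip
  have e1 : Reach (H ∩ ↑S) B (X1, y) := by
    refine meet_gen (p := B.1 - 12 * b) (q := B.1 + 12 * b) (c := B.2 + 4 * b)
      (d := B.2 + 8 * b) (by omega) (by omega) sPB sH ?_ ?_ ?_ ?_ ?_
      aB (by omega) (by omega) hH1 (by simp only; omega) (by simp only; omega)
    · rintro ⟨x, y, _ | _⟩ h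
      · simp only [hS, mem_RE_false] at h ⊢; omega
      · simp only [hS, mem_RE_true] at h ⊢; omega
    · intro x y h; simp only [DR, mem_RE_false] at h; omega
    · intro x y h; simp only [DR, mem_RE_true] at h; omega
    · intro x y h; simp only [mem_LRE_true] at h; omega
    · intro x y h; simp only [mem_LRE_false] at h; omega
  -- `A` and its strip
  have e2 : Reach (H ∩ ↑S) A (A.1 - 13 * b, z) := by
    refine meet_gen (p := A.1 - 12 * b) (q := A.1 + 12 * b) (c := A.2 + 4 * b)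
      (d := A.2 + 8 * b) (by omega) (by omega) sPA sL ?_ ?_ ?_ ?_ ?_
      aA (by omega) (by omega) hL (by simp only; omega) (by simp only; omega)
    · rintro ⟨x, y, _ | _⟩ h
      · simp only [hS, mem_RE_false] at h ⊢; omega
      · simp only [hS, mem_RE_true] at h ⊢; omega
    · intro x y h; simp only [DR, mem_RE_false] at h; omega
    · intro x y h; simp only [DR, mem_RE_true] at h; omega
    · intro x y h; simp only [mem_LRE_true] at h; omega
    · intro x y h; simp only [mem_LRE_false] at h; omega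
  -- the column and the upper strip
  have e3 : Reach (H ∩ ↑S) (x, A.2 + 4 * b) (X1, y) := by
    refine meet_gen (p := A.1 - 2 * b) (q := A.1 + 2 * b) (c := B.2 + 4 * b)
      (d := B.2 + 8 * b) (by omega) (by omega) sV sH ?_ ?_ ?_ ?_ ?_
      hV (by simp only; omega) (by simp only; omega) hH1 (by simp only; omega)
      (by simp only; omega)
    · rintro ⟨x, y, _ | _⟩ h
      · simp only [hS, mem_RE_false] at h ⊢; omega
      · simp only [hS, mem_RE_true] at h ⊢; omega
    · intro x y h; simp only [mem_TBE_false] at h; omega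
    · intro x y h; simp only [mem_TBE_true] at h; omega
    · intro x y h; simp only [mem_LRE_true] at h; omega
    · intro x y h; simp only [mem_LRE_false] at h; omega
  -- the column and the strip of `A`
  have e4 : Reach (H ∩ ↑S) (x, A.2 + 4 * b) (A.1 - 13 * b, z) := by
    refine meet_gen (p := A.1 - 2 * b) (q := A.1 + 2 * b) (c := A.2 + 4 * b)
      (d := A.2 + 8 * b) (by omega) (by omega) sV sL ?_ ?_ ?_ ?_ ?_
      hV (by simp only; omega) (by simp only; omega) hL (by simp only; omega)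
      (by simp only; omega)
    · rintro ⟨x, y, _ | _⟩ h
      · simp only [hS, mem_RE_false] at h ⊢; omega
      · simp only [hS, mem_RE_true] at h ⊢; omega
    · intro x y h; simp only [mem_TBE_false] at h; omega
    · intro x y h; simp only [mem_TBE_true] at h; omega
    · intro x y h; simp only [mem_LRE_true] at h; omega
    · intro x y h; simp only [mem_LRE_false] at h; omega
  exact ((back _ _ e2).trans (back _ _ e4).symm).trans ((back _ _ e3).trans (back _ _ e1).symm)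

/-- the two states are connected inside `S` -/
def CC (S F : Finset Edg) (σ τ : St) : Prop :=
  Reach (↑F) σ.1 τ.1 ∧ DReach (↑(S \ F)) (face σ) (face τ)

theorem twopt_ne {c : ℝ} (hc : 0 < c) (hL : LowA c (1/4)) (h : Pos A B X1 X2 b) :
    (κ0 * κ0 * κ0) * (κ0 * κ0 * κ0) * (c * (b:ℝ) ^ (-(1/4:ℝ))) * (c * (b:ℝ) ^ (-(1/4:ℝ))) ≤
      Pr (fun _ => (1/2:ℝ)) (SS A B X1 X2 b)
        (fun F => CC (SS A B X1 X2 b) F (A, Q4.ne) (B, Q4.ne)) := by
  have h' := h
  obtain ⟨b1, y1, y2, sep, xa, xb, xc, xd, wid⟩ := h'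
  have k0 := κ0_pos
  have hb0 : (0 : ℝ) < (b:ℝ) ^ (-(1/4:ℝ)) := Real.rpow_pos_of_pos (by
    have : 0 < b := by omega
    exact_mod_cast this) _
  set S := SS A B X1 X2 b with hS
  have sA : BA A b ⊆ S := by
    rintro ⟨x, y, _ | _⟩ h
    · simp only [BA, hS, SS, mem_RE_false] at h ⊢; omega
    · simp only [BA, hS, SS, mem_RE_true] at h ⊢; omega
  have sB : BA B b ⊆ S := by
    rintro ⟨x, y, _ | _⟩ h
    · simp only [BA, hS, SS, mem_RE_false] at h ⊢; omega
    · simp only [BA, hS, SS, mem_RE_true] at h ⊢; omega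
  have hdis : Disjoint (BA A b) (BA B b) := by
    rw [Finset.disjoint_left]
    rintro ⟨x, y, _ | _⟩ h1 h2
    · simp only [BA, mem_RE_false] at h1 h2; omega
    · simp only [BA, mem_RE_true] at h1 h2; omega
  have one : ∀ v : Vtx, BA v b ⊆ S → c * (b:ℝ) ^ (-(1/4:ℝ)) ≤
      Pr (fun _ => (1/2:ℝ)) S (fun F => RA v b (↑F)) := by
    intro v hv
    have hv0 : v ∈ ctr v b := by rw [mem_ctr']; omega
    refine (pr_ra_ge hL b1 hv0).trans (le_of_eq ?_)
    rw [pr_ra_local hv, pr_ra_local (BA_sub_NB b1 hv0)]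
  have hN : (c * (b:ℝ) ^ (-(1/4:ℝ))) * (c * (b:ℝ) ^ (-(1/4:ℝ))) ≤
      Pr (fun _ => (1/2:ℝ)) S (fun F => RA A b (↑F) ∧ RA B b (↑F)) := by
    rw [Pr_indep sA sB hdis (A := fun F => RA A b (↑F)) (B := fun F => RA B b (↑F))]
    · exact mul_le_mul (one A sA) (one B sB) (by positivity) (Pr_nonneg ok2 _ _)
    · intro F _
      rw [Finset.coe_inter]
      exact ra_inter _ _ (subset_refl _)
    · intro F _
      rw [Finset.coe_inter]
      exact ra_inter _ _ (subset_refl _)
  have sT2 : T2 A B X1 X2 b ⊆ dmp S := by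
    intro e he
    rw [mem_dmp]
    apply T2_sub h
    show dl (dl.symm e) ∈ T2 A B X1 X2 b
    rw [Equiv.apply_symm_apply]
    exact he
  have key := net (a := b) (S := S) (T1 := T1 A B X1 X2 b) (U := T2 A B X1 X2 b)
    (T1_sub h) (T2_sub h) (T12 h) (f := fe A B X1 X2 b) (g := ge A B X1 X2 b)
    (by
      intro F
      unfold fe
      rw [LRc_local (F := F) (S := T1 A B X1 X2 b)
          (Finset.subset_union_left.trans Finset.subset_union_left),
        TBc_local (F := F) (S := T1 A B X1 X2 b)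
          (Finset.subset_union_right.trans Finset.subset_union_left),
        LRc_local (F := F) (a := B.1 - 13 * b) (S := T1 A B X1 X2 b)
          Finset.subset_union_right])
    (fun F G hFG hF => ⟨⟨hF.1.1.mono hFG, hF.1.2.mono hFG⟩, hF.2.mono hFG⟩)
    (by
      intro F
      unfold ge
      rw [LRc_local (F := F) (S := T2 A B X1 X2 b)
          (Finset.subset_union_left.trans Finset.subset_union_left),
        TBc_local (F := F) (S := T2 A B X1 X2 b)
          (Finset.subset_union_right.trans Finset.subset_union_left),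
        LRc_local (F := F) (a := A.1 - 13 * b) (S := T2 A B X1 X2 b)
          Finset.subset_union_right])
    (fun F G hFG hF => ⟨⟨hF.1.1.mono hFG, hF.1.2.mono hFG⟩, hF.2.mono hFG⟩)
    (V := fun v => v = A ∨ v = B) (PR_T2 h) (DR_T1 h)
    (N := fun F => RA A b (↑F) ∧ RA B b (↑F))
    (fun F G _ _ hr hF => ⟨hr A (Or.inl rfl) hF.1, hr B (Or.inr rfl) hF.2⟩)
  refine le_trans ?_ (key.trans (Pr_mono ok2 ?_))
  · have h1 := pr_fe h (T1_sub h)
    have h2 := pr_ge h sT2
    have k3 : 0 < κ0 * κ0 * κ0 := by positivity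
    have h3 := mul_le_mul h1 h2 k3.le (k3.le.trans h1)
    have h4 := mul_le_mul hN h3 (by positivity) (Pr_nonneg ok2 _ _)
    refine le_trans (le_of_eq (by ring)) h4
  · rintro F _ ⟨⟨hRA, hRB⟩, hf, hg⟩
    exact ⟨conn_p h hRA hRB hf, conn_d h hRA hRB hg⟩

end Q292.LDep
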